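import Mathlib

/-!
The expansion `∑_{n ∈ A} 1/F_n = √5 ∑_k a_k φ^{-k}`.
-/

open Finset Real

namespace Pool.Agent.Helper9.Fib

/-- contribution of `n` to the coefficient at `k`. -/
def c (n k : ℕ) : ℤ := if n ∣ k ∧ Odd (k / n) then (-1) ^ ((k - n) / 2) else 0

/-- the coefficients. -/
noncomputable def a (A : Set ℕ) (k : ℕ) : ℤ := by
  classical exact ∑ n ∈ Icc 1 k, if n ∈ A then c n k else 0

/-- `φ⁻¹`. -/
noncomputable def x : ℝ := (goldenRatio)⁻¹

lemma x_eq : x = -goldenConj := inv_goldenRatio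

lemma x_pos : 0 < x := inv_pos.2 goldenRatio_pos

lemma x_lt_one : x < 1 := by
  unfold x
  exact inv_lt_one_of_one_lt₀ one_lt_goldenRatio

lemma c_zero_right (n : ℕ) : c n 0 = 0 := by
  unfold c
  rw [if_neg]
  rintro ⟨_, h⟩
  simp at h

lemma c_zero_left (k : ℕ) : c 0 k = 0 := by
  unfold c
  rw [if_neg]
  rintro ⟨h, h2⟩
  rw [zero_dvd_iff] at h
  subst h
  simp at h2

lemma c_of_lt {n k : ℕ} (h : k < n) : c n k = 0 := by
  rcases Nat.eq_zero_or_pos k with hk | hk
  · subst hk; exact c_zero_right n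
  · unfold c
    rw [if_neg]
    rintro ⟨h1, _⟩
    have := Nat.le_of_dvd hk h1
    omega

lemma abs_c_le (n k : ℕ) : |c n k| ≤ 1 := by
  unfold c
  split_ifs
  · rw [abs_pow, abs_neg, abs_one, one_pow]
  · simp

lemma c_ne_zero_iff (n k : ℕ) : c n k ≠ 0 ↔ n ∣ k ∧ Odd (k / n) := by
  unfold c
  split_ifs with h
  · simp [h]
  · simp only [ne_eq, not_true_eq_false, false_iff]; exact h

lemma a_zero (A : Set ℕ) : a A 0 = 0 := by unfold a; simp

lemma abs_a_le (A : Set ℕ) (k : ℕ) : |a A k| ≤ k := by
  classical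
  unfold a
  calc |∑ n ∈ Icc 1 k, if n ∈ A then c n k else 0| ≤ ∑ n ∈ Icc 1 k, |if n ∈ A then c n k else 0| :=
        Finset.abs_sum_le_sum_abs _ _
    _ ≤ ∑ n ∈ Icc 1 k, 1 := by
        apply Finset.sum_le_sum
        intro n _
        split_ifs
        · exact abs_c_le n k
        · simp
    _ = k := by simp

/-- the Lambert expansion of `1/F_n`. -/
lemma hasSum_c {n : ℕ} (hn : 1 ≤ n) :
    HasSum (fun k => (c n k : ℝ) * x ^ k) (1 / (√5 * (Nat.fib n : ℝ))) := by
  have hinj : Function.Injective (fun i : ℕ => n * (2 * i + 1)) := by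
    intro i j hij
    have h1 : 2 * i + 1 = 2 * j + 1 := Nat.eq_of_mul_eq_mul_left hn hij
    omega
  have hsupp : ∀ k, k ∉ Set.range (fun i : ℕ => n * (2 * i + 1)) → (c n k : ℝ) * x ^ k = 0 := by
    intro k hk
    have : c n k = 0 := by
      by_contra h
      rw [← ne_eq, c_ne_zero_iff] at h
      obtain ⟨⟨l, rfl⟩, h2⟩ := h
      rw [Nat.mul_div_cancel_left _ (by omega)] at h2
      obtain ⟨i, hi⟩ := h2
      exact hk ⟨i, by rw [hi]⟩
    rw [this]; simp
  rw [← hinj.hasSum_iff hsupp]
  have e : (fun k => (c n k : ℝ) * x ^ k) ∘ (fun i : ℕ => n * (2 * i + 1)) =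
      fun i => x ^ n * ((-1) ^ n * x ^ (2 * n)) ^ i := by
    funext i
    simp only [Function.comp_apply]
    have h1 : c n (n * (2 * i + 1)) = (-1) ^ (n * i) := by
      unfold c
      rw [if_pos]
      · congr 1
        have : n * (2 * i + 1) - n = 2 * (n * i) := by
          rw [Nat.mul_add, mul_one, Nat.add_sub_cancel]; ring
        rw [this]; omega
      · refine ⟨Dvd.intro _ rfl, ?_⟩
        rw [Nat.mul_div_cancel_left _ (by omega)]
        exact ⟨i, rfl⟩
    rw [h1]
    push_cast
    rw [mul_pow, ← pow_mul, ← pow_mul]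
    ring
  rw [e]
  have hx0 := x_pos
  have hx1 := x_lt_one
  have hy : |(-1 : ℝ) ^ n * x ^ (2 * n)| < 1 := by
    rw [abs_mul, abs_pow, abs_neg, abs_one, one_pow, one_mul, abs_of_pos (by positivity)]
    exact pow_lt_one₀ hx0.le hx1 (by omega)
  have hgeo := (hasSum_geometric_of_abs_lt_one hy).mul_left (x ^ n)
  have hne : (1 : ℝ) - (-1) ^ n * x ^ (2 * n) ≠ 0 := by
    have := (abs_lt.1 hy).2
    linarith
  have h5 : √5 ≠ 0 := by positivity
  have hval : 1 / (√5 * (Nat.fib n : ℝ)) = x ^ n * (1 - (-1) ^ n * x ^ (2 * n))⁻¹ := ?_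
  · rw [hval]; exact hgeo
  rw [coe_fib_eq, mul_div_cancel₀ _ h5]
  have hphi : goldenRatio = x⁻¹ := by unfold x; rw [inv_inv]
  have hpsi : goldenConj = -x := by rw [x_eq]; ring
  rw [hphi, hpsi]
  have h6 : (x⁻¹) ^ n - (-x) ^ n = (x ^ n)⁻¹ * (1 - (-1) ^ n * x ^ (2 * n)) := by
    have hxn : x ^ n ≠ 0 := by positivity
    rw [inv_pow, neg_pow, two_mul, pow_add]
    field_simp
  rw [h6, one_div, mul_inv, inv_inv]

lemma summable_pair (A : Set ℕ) [DecidablePred (· ∈ A)] :
    Summable (fun p : ℕ × ℕ => (if p.1 ∈ A then (c p.1 p.2 : ℝ) else 0) * x ^ p.2) := by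
  have hx0 := x_pos
  have hx1 := x_lt_one
  -- dominate by indicator
  have hdom : Summable (fun p : ℕ × ℕ => |(c p.1 p.2 : ℝ)| * x ^ p.2) := by
    rw [summable_prod_of_nonneg (fun p => by positivity)]
    have hinner : ∀ n : ℕ, HasSum (fun k => |(c n k : ℝ)| * x ^ k)
        (if n = 0 then 0 else x ^ n * (1 - x ^ (2 * n))⁻¹) := by
      intro n
      rcases Nat.eq_zero_or_pos n with hn | hn
      · subst hn
        rw [if_pos rfl]
        have : (fun k => |(c 0 k : ℝ)| * x ^ k) = fun _ => 0 := by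
          funext k; rw [c_zero_left]; simp
        rw [this]; exact hasSum_zero
      · rw [if_neg (by omega)]
        have hinj : Function.Injective (fun i : ℕ => n * (2 * i + 1)) := by
          intro i j hij
          have h1 : 2 * i + 1 = 2 * j + 1 := Nat.eq_of_mul_eq_mul_left hn hij
          omega
        have hsupp : ∀ k, k ∉ Set.range (fun i : ℕ => n * (2 * i + 1)) →
            |(c n k : ℝ)| * x ^ k = 0 := by
          intro k hk
          have : c n k = 0 := by
            by_contra h
            rw [← ne_eq, c_ne_zero_iff] at h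
            obtain ⟨⟨l, rfl⟩, h2⟩ := h
            rw [Nat.mul_div_cancel_left _ (by omega)] at h2
            obtain ⟨i, hi⟩ := h2
            exact hk ⟨i, by rw [hi]⟩
          rw [this]; simp
        rw [← hinj.hasSum_iff hsupp]
        have e : (fun k => |(c n k : ℝ)| * x ^ k) ∘ (fun i : ℕ => n * (2 * i + 1)) =
            fun i => x ^ n * (x ^ (2 * n)) ^ i := by
          funext i
          simp only [Function.comp_apply]
          have h1 : |(c n (n * (2 * i + 1)) : ℝ)| = 1 := by
            unfold c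
            rw [if_pos]
            · push_cast
              rw [abs_pow, abs_neg, abs_one, one_pow]
            · refine ⟨Dvd.intro _ rfl, ?_⟩
              rw [Nat.mul_div_cancel_left _ (by omega)]
              exact ⟨i, rfl⟩
          rw [h1, ← pow_mul]
          ring
        rw [e]
        have hy : |x ^ (2 * n)| < 1 := by
          rw [abs_of_pos (by positivity)]
          exact pow_lt_one₀ hx0.le hx1 (by omega)
        exact (hasSum_geometric_of_abs_lt_one hy).mul_left (x ^ n)
    refine ⟨fun n => (hinner n).summable, ?_⟩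
    have e : (fun n => ∑' k, |(c n k : ℝ)| * x ^ k) =
        fun n => (if n = 0 then 0 else x ^ n * (1 - x ^ (2 * n))⁻¹) := by
      funext n; exact (hinner n).tsum_eq
    rw [e]
    apply Summable.of_nonneg_of_le (f := fun n => x ^ n * (1 - x)⁻¹)
    · intro n
      split_ifs with h
      · exact le_refl _
      · have : x ^ (2 * n) < 1 := pow_lt_one₀ hx0.le hx1 (by omega)
        have : 0 < 1 - x ^ (2 * n) := by linarith
        positivity
    · intro n
      have h1x : 0 < 1 - x := by linarith
      split_ifs with h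
      · positivity
      · apply mul_le_mul_of_nonneg_left _ (by positivity)
        apply inv_anti₀ h1x
        have : x ^ (2 * n) ≤ x ^ 1 := pow_le_pow_of_le_one hx0.le hx1.le (by omega)
        rw [pow_one] at this
        linarith
    · exact (summable_geometric_of_lt_one hx0.le hx1).mul_right _
  apply Summable.of_norm_bounded hdom
  intro p
  rw [norm_mul, Real.norm_eq_abs, Real.norm_eq_abs, abs_of_pos (by positivity : 0 < x ^ p.2)]
  apply mul_le_mul_of_nonneg_right _ (by positivity)
  split_ifs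
  · exact le_refl _
  · simp

lemma tsum_c_eq_a (A : Set ℕ) [DecidablePred (· ∈ A)] (k : ℕ) :
    ∑' n, (if n ∈ A then (c n k : ℝ) else 0) * x ^ k = (a A k : ℝ) * x ^ k := by
  rw [tsum_eq_sum (s := Icc 1 k)]
  · rw [← Finset.sum_mul]
    congr 1
    unfold a
    push_cast
    apply Finset.sum_congr rfl
    intro n _
    by_cases h : n ∈ A
    · simp [h]
    · simp [h]
  · intro n hn
    have : c n k = 0 := by
      rw [Finset.mem_Icc, not_and_or] at hn
      rcases hn with h | h
      · have : n = 0 := by omega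
        subst this; exact c_zero_left k
      · exact c_of_lt (by omega)
    rw [this]; simp

/-- the main expansion. -/
theorem tsum_fib (A : Set ℕ) [DecidablePred (· ∈ A)] (h0 : 0 ∉ A) :
    ∑' n, (if n ∈ A then 1 / (Nat.fib n : ℝ) else 0) = √5 * ∑' k, (a A k : ℝ) * x ^ k := by
  have h5 : √5 ≠ 0 := by positivity
  have e1 : ∀ n, (if n ∈ A then 1 / (Nat.fib n : ℝ) else 0) =
      √5 * ∑' k, (if n ∈ A then (c n k : ℝ) else 0) * x ^ k := by
    intro n
    split_ifs with h
    · have hn : 1 ≤ n := by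
        rcases Nat.eq_zero_or_pos n with h1 | h1
        · subst h1; exact absurd h h0
        · exact h1
      rw [(hasSum_c hn).tsum_eq]
      have hf : (Nat.fib n : ℝ) ≠ 0 := by
        have := Nat.fib_pos.2 hn
        exact_mod_cast this.ne'
      field_simp
    · simp
  rw [tsum_congr e1, tsum_mul_left]
  congr 1
  have hs := summable_pair A
  have hcomm := Summable.tsum_comm
    (f := fun n k => (if n ∈ A then (c n k : ℝ) else 0) * x ^ k) hs
  have e3 : ∑' n, ∑' k, (if n ∈ A then (c n k : ℝ) else 0) * x ^ k =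
      ∑' k, ∑' n, (if n ∈ A then (c n k : ℝ) else 0) * x ^ k := hcomm.symm
  rw [e3]
  apply tsum_congr
  intro k
  exact tsum_c_eq_a A k

lemma summable_a (A : Set ℕ) : Summable (fun k => (a A k : ℝ) * x ^ k) := by
  have hx0 := x_pos
  have hx1 := x_lt_one
  have h1 : Summable (fun k : ℕ => (k : ℝ) ^ 1 * x ^ k) :=
    summable_pow_mul_geometric_of_norm_lt_one 1 (by rw [Real.norm_eq_abs, abs_of_pos hx0]; exact hx1)
  apply Summable.of_norm_bounded h1
  intro k
  rw [norm_mul, Real.norm_eq_abs, Real.norm_eq_abs, abs_of_pos (by positivity : 0 < x ^ k), pow_one]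
  apply mul_le_mul_of_nonneg_right _ (by positivity)
  have := abs_a_le A k
  exact_mod_cast this

lemma summable_a_shift (A : Set ℕ) (m : ℕ) : Summable (fun i => (a A (m + i) : ℝ) * x ^ i) := by
  have hx0 := x_pos
  have h1 := (summable_nat_add_iff m).2 (summable_a A)
  have h2 := h1.mul_right ((x ^ m)⁻¹)
  apply h2.congr
  intro i
  rw [pow_add, add_comm m i]
  field_simp

end Pool.Agent.Helper9.Fib
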