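import Mathlib
import Pool.Agent.Helper9.Fib.Series

/-!
Conjugate pairs in `ℤ[φ]` and the tails of the expansion.
-/

open Finset Real

namespace Pool.Agent.Helper9.Fib

/-- `(α, β)` is a pair of conjugate elements of `ℤ[φ]`. -/
def CP (α β : ℝ) : Prop := ∃ u v : ℤ, α = u + v * goldenRatio ∧ β = u + v * goldenConj

lemma CP.int (u : ℤ) : CP u u := ⟨u, 0, by simp, by simp⟩

lemma CP.add {α β α' β' : ℝ} (h : CP α β) (h' : CP α' β') : CP (α + α') (β + β') := by
  obtain ⟨u, v, h1, h2⟩ := h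
  obtain ⟨u', v', h1', h2'⟩ := h'
  refine ⟨u + u', v + v', ?_, ?_⟩
  · rw [h1, h1']; push_cast; ring
  · rw [h2, h2']; push_cast; ring

lemma CP.neg {α β : ℝ} (h : CP α β) : CP (-α) (-β) := by
  obtain ⟨u, v, h1, h2⟩ := h
  refine ⟨-u, -v, ?_, ?_⟩
  · rw [h1]; push_cast; ring
  · rw [h2]; push_cast; ring

lemma CP.sub {α β α' β' : ℝ} (h : CP α β) (h' : CP α' β') : CP (α - α') (β - β') := by
  rw [sub_eq_add_neg, sub_eq_add_neg]
  exact h.add h'.neg

lemma CP.mul {α β α' β' : ℝ} (h : CP α β) (h' : CP α' β') : CP (α * α') (β * β') := by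
  obtain ⟨u, v, h1, h2⟩ := h
  obtain ⟨u', v', h1', h2'⟩ := h'
  refine ⟨u * u' + v * v', u * v' + v * u' + v * v', ?_, ?_⟩
  · rw [h1, h1']; push_cast
    linear_combination (v * v' : ℝ) * goldenRatio_sq
  · rw [h2, h2']; push_cast
    linear_combination (v * v' : ℝ) * goldenConj_sq

lemma CP.phi : CP goldenRatio goldenConj := ⟨0, 1, by simp, by simp⟩

lemma CP.pow {α β : ℝ} (h : CP α β) (n : ℕ) : CP (α ^ n) (β ^ n) := by
  induction n with
  | zero => simpa using CP.int 1
  | succ n ih => rw [pow_succ, pow_succ]; exact ih.mul h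

lemma CP.sqrt5 : CP √5 (-√5) := by
  refine ⟨-1, 2, ?_, ?_⟩
  · push_cast; unfold goldenRatio; ring
  · push_cast; unfold goldenConj; ring

lemma CP.sum {ι : Type*} (s : Finset ι) (f g : ι → ℝ) (h : ∀ i ∈ s, CP (f i) (g i)) :
    CP (∑ i ∈ s, f i) (∑ i ∈ s, g i) := by
  classical
  induction s using Finset.induction_on with
  | empty => simpa using CP.int 0
  | insert j s hj ih =>
    rw [Finset.sum_insert hj, Finset.sum_insert hj]
    exact (h j (Finset.mem_insert_self _ _)).add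
      (ih (fun i hi => h i (Finset.mem_insert_of_mem hi)))

/-- the norm inequality. -/
lemma CP.one_le {α β : ℝ} (h : CP α β) (hα : α ≠ 0) : 1 ≤ |α * β| := by
  obtain ⟨u, v, h1, h2⟩ := h
  have hβ : β ≠ 0 := by
    intro h0
    rw [h2] at h0
    by_cases hv : v = 0
    · subst hv
      have hu : (u : ℝ) = 0 := by simpa using h0
      apply hα
      rw [h1, hu]; simp
    · have hv' : (v : ℝ) ≠ 0 := by exact_mod_cast hv
      have h3 : goldenConj = ((-u / v : ℚ) : ℝ) := by
        push_cast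
        rw [eq_div_iff hv']
        linarith
      exact goldenConj_irrational ⟨_, h3.symm⟩
  have h4 : α * β = ((u ^ 2 + u * v - v ^ 2 : ℤ) : ℝ) := by
    rw [h1, h2]
    push_cast
    linear_combination (u * v : ℝ) * goldenRatio_add_goldenConj +
      (v ^ 2 : ℝ) * goldenRatio_mul_goldenConj
  have h5 : (u ^ 2 + u * v - v ^ 2 : ℤ) ≠ 0 := by
    intro h6
    rw [h6] at h4
    have := mul_ne_zero hα hβ
    apply this
    rw [h4]; simp
  rw [h4]
  have h7 := Int.one_le_abs h5
  exact_mod_cast h7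

/-- forward tail. -/
noncomputable def R (A : Set ℕ) (m : ℕ) : ℝ := ∑' i, (a A (m + i) : ℝ) * x ^ i

/-- backward part. -/
noncomputable def Lc (A : Set ℕ) (m : ℕ) : ℝ := ∑ k ∈ range m, (a A k : ℝ) * goldenConj ^ (m - k)

lemma R_zero (A : Set ℕ) : R A 0 = ∑' k, (a A k : ℝ) * x ^ k := by
  unfold R; simp

lemma Lc_zero (A : Set ℕ) : Lc A 0 = 0 := by unfold Lc; simp

lemma R_eq (A : Set ℕ) (m : ℕ) :
    R A m = goldenRatio ^ m * R A 0 - ∑ k ∈ range m, (a A k : ℝ) * goldenRatio ^ (m - k) := by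
  have h1 := (summable_a A).sum_add_tsum_nat_add m
  rw [R_zero, ← h1, mul_add, Finset.mul_sum]
  have hphi : goldenRatio = x⁻¹ := by unfold x; rw [inv_inv]
  have hx : x ≠ 0 := x_pos.ne'
  have h2 : ∑ k ∈ range m, goldenRatio ^ m * ((a A k : ℝ) * x ^ k) =
      ∑ k ∈ range m, (a A k : ℝ) * goldenRatio ^ (m - k) := by
    apply Finset.sum_congr rfl
    intro k hk
    rw [Finset.mem_range] at hk
    rw [hphi]
    have : (x⁻¹) ^ m = (x⁻¹) ^ (m - k) * (x⁻¹) ^ k := by
      rw [← pow_add]; congr 1; omega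
    rw [this, inv_pow x k]
    field_simp
  rw [h2]
  have h3 : goldenRatio ^ m * ∑' i, (a A (i + m) : ℝ) * x ^ (i + m) = R A m := by
    unfold R
    rw [← tsum_mul_left]
    apply tsum_congr
    intro i
    rw [hphi, pow_add, add_comm i m, inv_pow]
    field_simp
  rw [h3]
  ring

/-- the lattice relation. -/
lemma CP_tail (A : Set ℕ) (P Q : ℤ) (hPQ : √5 * Q * R A 0 = P) (m m' : ℕ) :
    CP (√5 * Q * (R A m - R A m'))
      ((goldenConj ^ m - goldenConj ^ m') * P + √5 * Q * (Lc A m - Lc A m')) := by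
  have key : ∀ m : ℕ, CP (√5 * Q * R A m) (goldenConj ^ m * P + √5 * Q * Lc A m) := by
    intro m
    have e1 : √5 * Q * R A m = goldenRatio ^ m * P -
        √5 * Q * ∑ k ∈ range m, (a A k : ℝ) * goldenRatio ^ (m - k) := by
      rw [R_eq A m]
      linear_combination goldenRatio ^ m * hPQ
    have e2 : goldenConj ^ m * P + √5 * Q * Lc A m = goldenConj ^ m * P -
        (-√5) * Q * ∑ k ∈ range m, (a A k : ℝ) * goldenConj ^ (m - k) := by
      unfold Lc; ring
    rw [e1, e2]
    apply CP.sub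
    · exact (CP.phi.pow m).mul (CP.int P)
    · apply CP.mul
      · exact CP.sqrt5.mul (CP.int Q)
      · apply CP.sum
        intro k _
        exact (CP.int _).mul (CP.phi.pow _)
  have := (key m).sub (key m')
  have e1 : √5 * Q * (R A m - R A m') = √5 * Q * R A m - √5 * Q * R A m' := by ring
  have e2 : (goldenConj ^ m - goldenConj ^ m') * P + √5 * Q * (Lc A m - Lc A m') =
      goldenConj ^ m * P + √5 * Q * Lc A m - (goldenConj ^ m' * P + √5 * Q * Lc A m') := by ring
  rw [e1, e2]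
  exact this

/-- contradiction criterion. -/
lemma criterion (A : Set ℕ) (P Q : ℤ) (hQ : Q ≠ 0) (hPQ : √5 * Q * R A 0 = P) (m m' : ℕ) (C : ℝ)
    (hne : R A m ≠ R A m') (hC : |R A m - R A m'| ≤ C) :
    1 ≤ √5 * |(Q : ℝ)| * C * |(goldenConj ^ m - goldenConj ^ m') * P + √5 * Q * (Lc A m - Lc A m')| := by
  have h1 := CP_tail A P Q hPQ m m'
  have h5 : 0 < √5 := by positivity
  have hQ' : (Q : ℝ) ≠ 0 := by exact_mod_cast hQ
  have h2 := h1.one_le (by
    apply mul_ne_zero
    · exact mul_ne_zero h5.ne' hQ'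
    · exact sub_ne_zero.2 hne)
  rw [abs_mul, abs_mul, abs_mul, abs_of_pos h5] at h2
  refine h2.trans ?_
  apply mul_le_mul_of_nonneg_right _ (abs_nonneg _)
  apply mul_le_mul_of_nonneg_left hC (by positivity)

end Pool.Agent.Helper9.Fib
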