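import Mathlib
import Pool.Agent.Helper9.Fib.Norm

/-!
Two contradiction criteria.
-/

open Finset Real

namespace Pool.Agent.Helper9.Fib

lemma abs_psi : |goldenConj| = x := by
  rw [x_eq, abs_of_neg goldenConj_neg]

lemma abs_psi_pow (n : ℕ) : |goldenConj ^ n| = x ^ n := by rw [abs_pow, abs_psi]

lemma exists_pow_lt (ε : ℝ) (hε : 0 < ε) : ∃ L : ℕ, ∀ m, L ≤ m → x ^ m ≤ ε := by
  obtain ⟨L, hL⟩ := exists_pow_lt_of_lt_one hε x_lt_one
  refine ⟨L, fun m hm => ?_⟩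
  exact (pow_le_pow_of_le_one x_pos.le x_lt_one.le hm).trans hL.le

/-- backward sum as a sum over offsets. -/
lemma Lc_eq (A : Set ℕ) (m N : ℕ) (hN : m ≤ N) :
    Lc A m = ∑ i ∈ range N, (a A (m - (i + 1)) : ℝ) * goldenConj ^ (i + 1) := by
  unfold Lc
  have h1 : ∑ k ∈ range m, (a A k : ℝ) * goldenConj ^ (m - k) =
      ∑ i ∈ range m, (a A (m - (i + 1)) : ℝ) * goldenConj ^ (i + 1) := by
    rw [← Finset.sum_range_reflect]
    apply Finset.sum_congr rfl
    intro i hi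
    rw [Finset.mem_range] at hi
    have e1 : m - 1 - i = m - (i + 1) := by omega
    have e2 : m - (m - (i + 1)) = i + 1 := by omega
    rw [e1, e2]
  rw [h1]
  apply Finset.sum_subset
  · intro i hi
    rw [Finset.mem_range] at hi ⊢
    omega
  · intro i _ hi2
    rw [Finset.mem_range, not_lt] at hi2
    have : m - (i + 1) = 0 := by omega
    rw [this, a_zero]; simp

lemma R_sub_bound (A : Set ℕ) (m m' : ℕ) (ε : ℝ)
    (h : ∀ N, ∑ i ∈ range N, |(a A (m + (i + 1)) : ℝ) - a A (m' + (i + 1))| * x ^ (i + 1) ≤ ε) :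
    |R A m - R A m' - ((a A m : ℝ) - a A m')| ≤ ε := by
  have s1 := summable_a_shift A m
  have s2 := summable_a_shift A m'
  have e1 : R A m = a A m + ∑' i, (a A (m + (i + 1)) : ℝ) * x ^ (i + 1) := by
    unfold R
    rw [s1.tsum_eq_zero_add]
    simp
  have e2 : R A m' = a A m' + ∑' i, (a A (m' + (i + 1)) : ℝ) * x ^ (i + 1) := by
    unfold R
    rw [s2.tsum_eq_zero_add]
    simp
  have t1 := (summable_nat_add_iff 1).2 s1
  have t2 := (summable_nat_add_iff 1).2 s2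
  have e3 : R A m - R A m' - ((a A m : ℝ) - a A m') =
      ∑' i, ((a A (m + (i + 1)) : ℝ) - a A (m' + (i + 1))) * x ^ (i + 1) := by
    rw [e1, e2]
    have : ∑' i, ((a A (m + (i + 1)) : ℝ) - a A (m' + (i + 1))) * x ^ (i + 1) =
        ∑' i, (a A (m + (i + 1)) : ℝ) * x ^ (i + 1) -
        ∑' i, (a A (m' + (i + 1)) : ℝ) * x ^ (i + 1) := by
      rw [← t1.tsum_sub t2]
      apply tsum_congr
      intro i; ring
    rw [this]; ring
  rw [e3]
  have hnorm : ∀ i : ℕ, ‖((a A (m + (i + 1)) : ℝ) - a A (m' + (i + 1))) * x ^ (i + 1)‖ =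
      |(a A (m + (i + 1)) : ℝ) - a A (m' + (i + 1))| * x ^ (i + 1) := by
    intro i
    rw [norm_mul, Real.norm_eq_abs, Real.norm_eq_abs, abs_of_pos (pow_pos x_pos _)]
  have hsum : Summable (fun i : ℕ => |(a A (m + (i + 1)) : ℝ) - a A (m' + (i + 1))| * x ^ (i + 1)) := by
    apply summable_of_sum_range_le (c := ε)
    · intro i; exact mul_nonneg (abs_nonneg _) (pow_nonneg x_pos.le _)
    · exact h
  have h3 : ‖∑' i, ((a A (m + (i + 1)) : ℝ) - a A (m' + (i + 1))) * x ^ (i + 1)‖ ≤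
      ∑' i, ‖((a A (m + (i + 1)) : ℝ) - a A (m' + (i + 1))) * x ^ (i + 1)‖ := by
    apply norm_tsum_le_tsum_norm
    apply hsum.congr
    intro i; rw [hnorm]
  rw [Real.norm_eq_abs] at h3
  refine h3.trans ?_
  rw [tsum_congr hnorm]
  exact Real.tsum_le_of_sum_range_le (fun i => mul_nonneg (abs_nonneg _) (pow_nonneg x_pos.le _)) h

/-- criterion for case I. -/
theorem crit_one (A : Set ℕ) (P Q : ℤ) (hQ : Q ≠ 0) (hPQ : √5 * Q * R A 0 = P)
    (H : ∀ ε : ℝ, 0 < ε → ∀ L : ℕ, ∃ m m' : ℕ, L ≤ m ∧ L ≤ m' ∧ |a A m - a A m'| = 1 ∧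
      (∀ N, ∑ i ∈ range N, |(a A (m + (i + 1)) : ℝ) - a A (m' + (i + 1))| * x ^ (i + 1) ≤ ε) ∧
      (∀ N, ∑ i ∈ range N, |(a A (m - (i + 1)) : ℝ) - a A (m' - (i + 1))| * x ^ (i + 1) ≤ ε)) :
    False := by
  have h5 : 0 < √5 := by positivity
  set K : ℝ := √5 * |(Q : ℝ)| * 2 * (2 * |(P : ℝ)| + √5 * |(Q : ℝ)|) with hK
  have hQ' : 0 < |(Q : ℝ)| := by
    rw [abs_pos]; exact_mod_cast hQ
  have hKpos : 0 < K := by positivity
  set ε : ℝ := min (1 / 2) (1 / (2 * K)) with hε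
  have hεpos : 0 < ε := by
    rw [hε]; apply lt_min <;> positivity
  obtain ⟨L, hL⟩ := exists_pow_lt ε hεpos
  obtain ⟨m, m', hm, hm', hd, hf, hb⟩ := H ε hεpos L
  have h1 := R_sub_bound A m m' ε hf
  have hd' : |(a A m : ℝ) - a A m'| = 1 := by exact_mod_cast hd
  have hε2 : ε ≤ 1 / 2 := min_le_left _ _
  have hε3 : ε ≤ 1 / (2 * K) := min_le_right _ _
  have hne : R A m ≠ R A m' := by
    intro h
    rw [h, sub_self, zero_sub, abs_neg, hd'] at h1
    linarith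
  have hC : |R A m - R A m'| ≤ 2 := by
    have : R A m - R A m' = (R A m - R A m' - ((a A m : ℝ) - a A m')) + ((a A m : ℝ) - a A m') := by
      ring
    rw [this]
    refine (abs_add_le _ _).trans ?_
    rw [hd']; linarith
  have h2 := criterion A P Q hQ hPQ m m' 2 hne hC
  -- bound for the conjugate
  have h3 : |Lc A m - Lc A m'| ≤ ε := by
    rw [Lc_eq A m (max m m') (le_max_left _ _), Lc_eq A m' (max m m') (le_max_right _ _),
      ← Finset.sum_sub_distrib]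
    refine (Finset.abs_sum_le_sum_abs _ _).trans ?_
    refine le_trans (le_of_eq ?_) (hb (max m m'))
    apply Finset.sum_congr rfl
    intro i _
    rw [← sub_mul, abs_mul, abs_psi_pow]
  have h4 : |(goldenConj ^ m - goldenConj ^ m') * P + √5 * Q * (Lc A m - Lc A m')| ≤
      (2 * |(P : ℝ)| + √5 * |(Q : ℝ)|) * ε := by
    refine (abs_add_le _ _).trans ?_
    rw [abs_mul, abs_mul, abs_mul, abs_of_pos h5]
    have h6 : |goldenConj ^ m - goldenConj ^ m'| ≤ 2 * ε := by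
      refine (abs_sub _ _).trans ?_
      rw [abs_psi_pow, abs_psi_pow]
      linarith [hL m hm, hL m' hm']
    have h7 : |goldenConj ^ m - goldenConj ^ m'| * |(P : ℝ)| ≤ 2 * ε * |(P : ℝ)| :=
      mul_le_mul_of_nonneg_right h6 (abs_nonneg _)
    have h8 : √5 * |(Q : ℝ)| * |Lc A m - Lc A m'| ≤ √5 * |(Q : ℝ)| * ε :=
      mul_le_mul_of_nonneg_left h3 (by positivity)
    linarith
  have h9 : √5 * |(Q : ℝ)| * 2 * |(goldenConj ^ m - goldenConj ^ m') * P + √5 * Q * (Lc A m - Lc A m')| ≤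
      K * ε := by
    rw [hK]
    have := mul_le_mul_of_nonneg_left h4 (by positivity : 0 ≤ √5 * |(Q : ℝ)| * 2)
    linarith
  have h10 : K * ε ≤ 1 / 2 := by
    calc K * ε ≤ K * (1 / (2 * K)) := mul_le_mul_of_nonneg_left hε3 hKpos.le
      _ = 1 / 2 := by field_simp
  linarith

/-- criterion for case II. -/
theorem crit_two (A : Set ℕ) (P Q : ℤ) (hQ : Q ≠ 0) (hPQ : √5 * Q * R A 0 = P) (C : ℝ)
    (H : ∀ ε : ℝ, 0 < ε → ∀ L : ℕ, ∃ m : ℕ, L ≤ m ∧ a A m ≠ 0 ∧ |(a A m : ℝ)| ≤ C ∧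
      (∀ N, ∑ i ∈ range N, |(a A (m + (i + 1)) : ℝ) - a A (i + 1)| * x ^ (i + 1) ≤ ε) ∧
      (∀ N, ∑ i ∈ range N, |(-1) ^ (i + 1) * (a A (m - (i + 1)) : ℝ) - a A (i + 1)| * x ^ (i + 1) ≤ ε)) :
    False := by
  have h5 : 0 < √5 := by positivity
  have hC0 : 0 ≤ C := by
    obtain ⟨m, _, _, h, _⟩ := H 1 one_pos 0
    exact (abs_nonneg _).trans h
  set K : ℝ := √5 * |(Q : ℝ)| * (C + 1) * (|(P : ℝ)| + √5 * |(Q : ℝ)|) with hK
  have hQ' : 0 < |(Q : ℝ)| := by
    rw [abs_pos]; exact_mod_cast hQ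
  have hKpos : 0 < K := by positivity
  set ε : ℝ := min (1 / 2) (1 / (2 * K)) with hε
  have hεpos : 0 < ε := by
    rw [hε]; apply lt_min <;> positivity
  obtain ⟨L, hL⟩ := exists_pow_lt (ε / 2) (by positivity)
  obtain ⟨m, hm, hd, hd2, hf, hb⟩ := H (ε / 2) (by positivity) L
  have h1 := R_sub_bound A m 0 (ε / 2) (by simpa using hf)
  rw [a_zero, Int.cast_zero, sub_zero] at h1
  have hd' : 1 ≤ |(a A m : ℝ)| := by
    have := Int.one_le_abs hd
    exact_mod_cast this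
  have hε2 : ε ≤ 1 / 2 := min_le_left _ _
  have hε3 : ε ≤ 1 / (2 * K) := min_le_right _ _
  have hne : R A m ≠ R A 0 := by
    intro h
    rw [h, sub_self, zero_sub, abs_neg] at h1
    linarith
  have hC : |R A m - R A 0| ≤ C + 1 := by
    have : R A m - R A 0 = (R A m - R A 0 - (a A m : ℝ)) + (a A m : ℝ) := by ring
    rw [this]
    refine (abs_add_le _ _).trans ?_
    linarith
  have h2 := criterion A P Q hQ hPQ m 0 (C + 1) hne hC
  have hR0 : |Lc A m - R A 0| ≤ ε := by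
    -- R A 0 = sum of a_{i+1} x^{i+1}
    have s1 := summable_a_shift A 0
    have e1 : R A 0 = ∑' i, (a A (i + 1) : ℝ) * x ^ (i + 1) := by
      unfold R
      rw [s1.tsum_eq_zero_add]
      simp [a_zero]
    have t1 : Summable (fun i => (a A (i + 1) : ℝ) * x ^ (i + 1)) := by
      have := (summable_nat_add_iff 1).2 (summable_a A)
      exact this
    -- limit argument
    have hlim := t1.hasSum.tendsto_sum_nat
    rw [← e1] at hlim
    have hbd : ∀ N, m ≤ N → |Lc A m - ∑ i ∈ range N, (a A (i + 1) : ℝ) * x ^ (i + 1)| ≤ ε / 2 := by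
      intro N hN
      rw [Lc_eq A m N hN, ← Finset.sum_sub_distrib]
      refine (Finset.abs_sum_le_sum_abs _ _).trans ?_
      refine le_trans (le_of_eq ?_) (hb N)
      apply Finset.sum_congr rfl
      intro i _
      have hpsi : goldenConj = -x := by rw [x_eq]; ring
      rw [hpsi, neg_pow]
      have : (a A (m - (i + 1)) : ℝ) * ((-1) ^ (i + 1) * x ^ (i + 1)) - (a A (i + 1) : ℝ) * x ^ (i + 1) =
        ((-1) ^ (i + 1) * (a A (m - (i + 1)) : ℝ) - a A (i + 1)) * x ^ (i + 1) := by ring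
      rw [this, abs_mul, abs_of_pos (pow_pos x_pos _)]
    have hlim2 : Filter.Tendsto (fun N => |Lc A m - ∑ i ∈ range N, (a A (i + 1) : ℝ) * x ^ (i + 1)|)
        Filter.atTop (nhds |Lc A m - R A 0|) := (hlim.const_sub (Lc A m)).abs
    have h6 : |Lc A m - R A 0| ≤ ε / 2 := by
      apply le_of_tendsto hlim2
      filter_upwards [Filter.eventually_ge_atTop m] with N hN
      exact hbd N hN
    linarith
  have e3 : (goldenConj ^ m - goldenConj ^ 0) * P + √5 * Q * (Lc A m - Lc A 0) =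
      goldenConj ^ m * P + √5 * Q * (Lc A m - R A 0) := by
    rw [Lc_zero, pow_zero]
    linear_combination (-1 : ℝ) * (-hPQ)
  rw [e3] at h2
  have h4 : |goldenConj ^ m * P + √5 * Q * (Lc A m - R A 0)| ≤
      (|(P : ℝ)| + √5 * |(Q : ℝ)|) * ε := by
    refine (abs_add_le _ _).trans ?_
    rw [abs_mul, abs_mul, abs_mul, abs_of_pos h5, abs_psi_pow]
    have h7 : x ^ m * |(P : ℝ)| ≤ ε * |(P : ℝ)| := by
      apply mul_le_mul_of_nonneg_right _ (abs_nonneg _)
      linarith [hL m hm]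
    have h8 : √5 * |(Q : ℝ)| * |Lc A m - R A 0| ≤ √5 * |(Q : ℝ)| * ε :=
      mul_le_mul_of_nonneg_left hR0 (by positivity)
    linarith
  have h9 : √5 * |(Q : ℝ)| * (C + 1) * |goldenConj ^ m * P + √5 * Q * (Lc A m - R A 0)| ≤
      K * ε := by
    rw [hK]
    have := mul_le_mul_of_nonneg_left h4 (by positivity : 0 ≤ √5 * |(Q : ℝ)| * (C + 1))
    linarith
  have h10 : K * ε ≤ 1 / 2 := by
    calc K * ε ≤ K * (1 / (2 * K)) := mul_le_mul_of_nonneg_left hε3 hKpos.le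
      _ = 1 / 2 := by field_simp
  linarith

end Pool.Agent.Helper9.Fib
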