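import Mathlib
import Pool.Agent.Helper9.Fib.Crit

/-!
Case II: the odd parts of the elements of `A` all divide a fixed odd number.
-/

open Finset Real

namespace Pool.Agent.Helper9.Fib

lemma c_add {n d k : ℕ} (hn : 1 ≤ n) (h : 4 * n ∣ d) (hk : 1 ≤ k) : c n (k + d) = c n k := by
  obtain ⟨e, rfl⟩ := h
  unfold c
  have h1 : n ∣ k + 4 * n * e ↔ n ∣ k := by
    rw [Nat.dvd_add_left]
    exact ⟨4 * e, by ring⟩
  by_cases hd : n ∣ k
  · obtain ⟨l, rfl⟩ := hd
    have e1 : n * l + 4 * n * e = n * (l + 4 * e) := by ring
    have hl : 1 ≤ l := by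
      rcases Nat.eq_zero_or_pos l with h0 | h0
      · subst h0; omega
      · exact h0
    rw [e1, Nat.mul_div_cancel_left _ hn, Nat.mul_div_cancel_left _ hn]
    have h2 : Odd (l + 4 * e) ↔ Odd l := by
      rw [Nat.odd_add]
      have : Even (4 * e) := ⟨2 * e, by ring⟩
      simp [this]
    have h3 : n ∣ n * (l + 4 * e) := Dvd.intro _ rfl
    have h4 : n ∣ n * l := Dvd.intro _ rfl
    by_cases ho : Odd l
    · rw [if_pos ⟨h3, h2.2 ho⟩, if_pos ⟨h4, ho⟩]
      obtain ⟨i, rfl⟩ := ho
      have e2 : n * (2 * i + 1 + 4 * e) - n = 2 * (n * i + 2 * (n * e)) := by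
        have : n * (2 * i + 1 + 4 * e) = 2 * (n * i + 2 * (n * e)) + n := by ring
        omega
      have e3 : n * (2 * i + 1) - n = 2 * (n * i) := by
        have : n * (2 * i + 1) = 2 * (n * i) + n := by ring
        omega
      rw [e2, e3, Nat.mul_div_cancel_left _ (by norm_num), Nat.mul_div_cancel_left _ (by norm_num),
        pow_add, pow_mul (-1 : ℤ) 2]
      simp
    · rw [if_neg (fun h => ho (h2.1 h.2)), if_neg (fun h => ho h.2)]
  · rw [if_neg (fun h => hd (h1.1 h.1)), if_neg (fun h => hd h.1)]

lemma c_sub {n d i : ℕ} (hn : 1 ≤ n) (h : 4 * n ∣ d) (hi : 1 ≤ i) (hid : i < d) :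
    (-1) ^ i * c n (d - i) = c n i := by
  obtain ⟨e, rfl⟩ := h
  unfold c
  have h1 : n ∣ 4 * n * e - i ↔ n ∣ i := by
    rw [← Nat.dvd_sub_iff_right hid.le ⟨4 * e, by ring⟩]
  by_cases hd : n ∣ i
  · obtain ⟨l, rfl⟩ := hd
    have e1 : 4 * n * e - n * l = n * (4 * e - l) := by
      rw [Nat.mul_sub]; congr 1; ring
    have hl : 1 ≤ l := by
      rcases Nat.eq_zero_or_pos l with h0 | h0
      · subst h0; omega
      · exact h0
    have hle : l < 4 * e := by
      have : n * l < n * (4 * e) := by
        calc n * l < 4 * n * e := hid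
          _ = n * (4 * e) := by ring
      exact Nat.lt_of_mul_lt_mul_left this
    rw [e1, Nat.mul_div_cancel_left _ hn, Nat.mul_div_cancel_left _ hn]
    have h2 : Odd (4 * e - l) ↔ Odd l := by
      rw [Nat.odd_sub hle.le]
      have : ¬ Odd (4 * e) := by
        rw [Nat.not_odd_iff_even]; exact ⟨2 * e, by ring⟩
      simp only [this, false_iff, Nat.not_even_iff_odd]
    have h3 : n ∣ n * (4 * e - l) := Dvd.intro _ rfl
    have h4 : n ∣ n * l := Dvd.intro _ rfl
    by_cases ho : Odd l
    · rw [if_pos ⟨h3, h2.2 ho⟩, if_pos ⟨h4, ho⟩]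
      obtain ⟨j, rfl⟩ := ho
      obtain ⟨r, hr⟩ : ∃ r, 4 * e - (2 * j + 1) = 2 * r + 1 := ⟨2 * e - j - 1, by omega⟩
      have hjr : j + r + 1 = 2 * e := by omega
      rw [hr]
      have e2 : n * (2 * r + 1) - n = 2 * (n * r) := by
        have : n * (2 * r + 1) = 2 * (n * r) + n := by ring
        omega
      have e3 : n * (2 * j + 1) - n = 2 * (n * j) := by
        have : n * (2 * j + 1) = 2 * (n * j) + n := by ring
        omega
      rw [e2, e3, Nat.mul_div_cancel_left _ (by norm_num), Nat.mul_div_cancel_left _ (by norm_num),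
        ← pow_add]
      have e4 : n * (2 * j + 1) + n * r = n * j + 2 * (n * e) := by
        have : n * (2 * j + 1) + n * r = n * j + n * (j + r + 1) := by ring
        rw [this, hjr]; ring
      rw [e4, pow_add, pow_mul (-1 : ℤ) 2]
      simp
    · rw [if_neg (fun h => ho (h2.1 h.2)), if_neg (fun h => ho h.2)]
      simp
  · rw [if_neg (fun h => hd (h1.1 h.1)), if_neg (fun h => hd h.1)]
    simp

/-- enlarge the range in the definition of `a`. -/
lemma a_eq (A : Set ℕ) [DecidablePred (· ∈ A)] (k M : ℕ) (h : k ≤ M) :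
    a A k = ∑ n ∈ Icc 1 M, if n ∈ A then c n k else 0 := by
  unfold a
  have h1 : Icc 1 k ⊆ Icc 1 M := Finset.Icc_subset_Icc_right h
  rw [← Finset.sum_subset h1]
  · apply Finset.sum_congr rfl
    intro n _
    by_cases h : n ∈ A
    · simp [h]
    · simp [h]
  · intro n hn hn2
    rw [Finset.mem_Icc] at hn hn2
    split_ifs
    · exact c_of_lt (by omega)
    · rfl

lemma tail_small (f : ℕ → ℝ) (hf : Summable f) (h0 : ∀ i, 0 ≤ f i) (ε : ℝ) (hε : 0 < ε) :
    ∃ B0 : ℕ, ∀ B, B0 ≤ B → ∀ N, ∑ i ∈ range N, (if B ≤ i then f i else 0) ≤ ε := by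
  have h1 := tendsto_sum_nat_add f
  have h2 := h1.eventually_le_const hε
  rw [Filter.eventually_atTop] at h2
  obtain ⟨B0, hB0⟩ := h2
  refine ⟨B0, fun B hB N => ?_⟩
  refine le_trans ?_ (hB0 B hB)
  have hs : Summable (fun k => f (k + B)) := (summable_nat_add_iff B).2 hf
  have e1 : ∑ i ∈ range N, (if B ≤ i then f i else 0) ≤ ∑ i ∈ range (N + B), (if B ≤ i then f i else 0) := by
    apply Finset.sum_le_sum_of_subset_of_nonneg
    · apply Finset.range_mono; omega
    · intro i _ _
      split_ifs
      · exact h0 i
      · exact le_refl _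
  refine e1.trans ?_
  rw [add_comm N B, Finset.sum_range_add]
  have e2 : ∑ i ∈ range B, (if B ≤ i then f i else 0) = 0 := by
    apply Finset.sum_eq_zero
    intro i hi
    rw [Finset.mem_range] at hi
    rw [if_neg (by omega)]
  rw [e2, zero_add]
  have e3 : ∑ k ∈ range N, (if B ≤ B + k then f (B + k) else 0) = ∑ k ∈ range N, f (k + B) := by
    apply Finset.sum_congr rfl
    intro k _
    rw [if_pos (by omega), add_comm]
  rw [e3]
  exact hs.sum_le_tsum _ (fun k _ => h0 _)

/-- in case II the coefficients are bounded. -/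
lemma abs_a_le_two (A : Set ℕ) (C : ℕ) (hC : 1 ≤ C) (hA : ∀ n ∈ A, ∃ f e : ℕ, n = 2 ^ f * e ∧ e ∣ C)
    (hCodd : Odd C) (k : ℕ) : |a A k| ≤ C := by
  classical
  rw [a_eq A k k le_rfl]
  rcases Nat.eq_zero_or_pos k with hk | hk
  · subst hk; simp
  calc |∑ n ∈ Icc 1 k, if n ∈ A then c n k else 0| ≤ ∑ n ∈ Icc 1 k, |if n ∈ A then c n k else 0| :=
        Finset.abs_sum_le_sum_abs _ _
    _ = ∑ n ∈ (Icc 1 k).filter (fun n => n ∈ A ∧ c n k ≠ 0), |if n ∈ A then c n k else 0| := by
        rw [Finset.sum_filter_of_ne]
        intro n _ hne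
        by_cases h : n ∈ A
        · rw [if_pos h] at hne
          exact ⟨h, fun h0 => hne (by rw [h0]; simp)⟩
        · rw [if_neg h] at hne
          simp at hne
    _ ≤ ∑ n ∈ (Icc 1 k).filter (fun n => n ∈ A ∧ c n k ≠ 0), 1 := by
        apply Finset.sum_le_sum
        intro n _
        split_ifs
        · exact abs_c_le n k
        · simp
    _ = (((Icc 1 k).filter (fun n => n ∈ A ∧ c n k ≠ 0)).card : ℤ) := by simp
    _ ≤ (((Icc 1 C).card : ℕ) : ℤ) := by
        apply Nat.cast_le.2
        apply Finset.card_le_card_of_injOn (fun n => n / 2 ^ (k.factorization 2))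
        · intro n hn
          rw [Finset.mem_coe, Finset.mem_filter] at hn
          obtain ⟨_, hnA, hne⟩ := hn
          rw [c_ne_zero_iff] at hne
          obtain ⟨f, e, rfl, he⟩ := hA n hnA
          have heodd : Odd e := Odd.of_dvd_nat hCodd he
          obtain ⟨⟨l, hl⟩, ho⟩ := hne
          have hepos : 0 < e := heodd.pos
          rw [hl, Nat.mul_div_cancel_left _ (by positivity)] at ho
          have hv : k.factorization 2 = f := by
            rw [hl, mul_assoc]
            have hodd : ¬ 2 ∣ e * l := by
              rw [← even_iff_two_dvd, Nat.not_even_iff_odd]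
              exact heodd.mul ho
            rw [Nat.factorization_mul (by positivity) (by
              intro h0; rw [h0] at hodd; exact hodd (dvd_zero _))]
            rw [Finsupp.add_apply, Nat.factorization_eq_zero_of_not_dvd hodd,
              Nat.Prime.factorization_pow Nat.prime_two]
            simp
          simp only [hv]
          rw [Nat.mul_div_cancel_left _ (by positivity), Finset.mem_coe, Finset.mem_Icc]
          exact ⟨hepos, Nat.le_of_dvd (by omega) he⟩
        · intro n hn n' hn' hnn
          rw [Finset.mem_coe, Finset.mem_filter] at hn hn'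
          have key : ∀ n, n ∈ A → c n k ≠ 0 → 2 ^ (k.factorization 2) ∣ n := by
            intro n hnA hne
            rw [c_ne_zero_iff] at hne
            obtain ⟨f, e, rfl, he⟩ := hA n hnA
            have heodd : Odd e := Odd.of_dvd_nat hCodd he
            obtain ⟨⟨l, hl⟩, ho⟩ := hne
            have hepos : 0 < e := heodd.pos
            rw [hl, Nat.mul_div_cancel_left _ (by positivity)] at ho
            have hv : k.factorization 2 = f := by
              rw [hl, mul_assoc]
              have hodd : ¬ 2 ∣ e * l := by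
                rw [← even_iff_two_dvd, Nat.not_even_iff_odd]
                exact heodd.mul ho
              rw [Nat.factorization_mul (by positivity) (by
                intro h0; rw [h0] at hodd; exact hodd (dvd_zero _))]
              rw [Finsupp.add_apply, Nat.factorization_eq_zero_of_not_dvd hodd,
                Nat.Prime.factorization_pow Nat.prime_two]
              simp
            rw [hv]; exact Dvd.intro _ rfl
          have h1 := key n hn.2.1 hn.2.2
          have h2 := key n' hn'.2.1 hn'.2.2
          obtain ⟨u, hu⟩ := h1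
          obtain ⟨w, hw⟩ := h2
          simp only at hnn
          rw [hu, hw, Nat.mul_div_cancel_left _ (by positivity),
            Nat.mul_div_cancel_left _ (by positivity)] at hnn
          rw [hu, hw, hnn]
    _ = C := by simp

/-- Case II of the theorem. -/
theorem case_two (A : Set ℕ) (h0 : 0 ∉ A) (hinf : A.Infinite) (C : ℕ) (hCodd : Odd C)
    (hA : ∀ n ∈ A, ∃ f e : ℕ, n = 2 ^ f * e ∧ e ∣ C) (P Q : ℤ) (hQ : Q ≠ 0)
    (hPQ : √5 * Q * R A 0 = P) : False := by
  classical
  have hC : 1 ≤ C := hCodd.pos
  apply crit_two A P Q hQ hPQ (C : ℝ)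
  intro ε hε L
  have hx0 := x_pos
  have hx1 := x_lt_one
  -- tail
  have hsum : Summable (fun i : ℕ => (2 * C : ℝ) * x ^ i) :=
    (summable_geometric_of_lt_one hx0.le hx1).mul_left _
  obtain ⟨B0, hB0⟩ := tail_small _ hsum (fun i => by positivity) ε hε
  -- element of A with large 2-adic valuation
  set F := B0 + L + 3 with hF
  have hex : ∃ n ∈ A, ∃ f e : ℕ, n = 2 ^ f * e ∧ e ∣ C ∧ F ≤ f := by
    by_contra hcon
    push Not at hcon
    apply hinf
    apply Set.Finite.subset (Set.finite_Iic (2 ^ F * C))
    intro n hn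
    obtain ⟨f, e, h1, h2⟩ := hA n hn
    have h3 := hcon n hn f e h1 h2
    rw [Set.mem_Iic, h1]
    exact Nat.mul_le_mul (Nat.pow_le_pow_right (by norm_num) h3.le) (Nat.le_of_dvd (by omega) h2)
  obtain ⟨n, hn, f, e, hne, heC, hf⟩ := hex
  set m := 2 ^ f * C with hm
  have hbig : F < 2 ^ f := lt_of_le_of_lt hf Nat.lt_two_pow_self
  have hbig2 : B0 + L + 2 < 2 ^ (f - 1) := by
    have : f - 1 < 2 ^ (f - 1) := Nat.lt_two_pow_self
    omega
  have hmf : 2 ^ f ≤ m := by rw [hm]; exact Nat.le_mul_of_pos_right _ (by omega)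
  have hff : 2 ^ f = 2 * 2 ^ (f - 1) := by
    rw [← pow_succ']; congr 1; omega
  -- windows
  have hwin : ∀ n ∈ A, ∀ i, 1 ≤ i → i < 2 ^ (f - 1) → c n (m + i) = c n i ∧
      (-1) ^ i * c n (m - i) = c n i := by
    intro n hn i hi1 hi2
    have hn1 : 1 ≤ n := by
      rcases Nat.eq_zero_or_pos n with h | h
      · subst h; exact absurd hn h0
      · exact h
    obtain ⟨g, e', h1, h2⟩ := hA n hn
    by_cases hg : g + 2 ≤ f
    · have hdvd : 4 * n ∣ m := by
        rw [h1, hm]
        have : 2 ^ f = 4 * 2 ^ g * 2 ^ (f - (g + 2)) := by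
          rw [show (4 : ℕ) = 2 ^ 2 by norm_num, ← pow_add, ← pow_add]; congr 1; omega
        rw [this]
        obtain ⟨w, hw⟩ := h2
        rw [hw]
        exact ⟨2 ^ (f - (g + 2)) * w, by ring⟩
      constructor
      · rw [add_comm]; exact c_add hn1 hdvd hi1
      · exact c_sub hn1 hdvd hi1 (by omega)
    · -- 2^(f-1) divides n
      have hdn : 2 ^ (f - 1) ∣ n := by
        rw [h1]
        exact Dvd.dvd.mul_right (pow_dvd_pow 2 (by omega)) _
      have hdm : 2 ^ (f - 1) ∣ m := by
        rw [hm, hff]; exact ⟨2 * C, by ring⟩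
      have z1 : c n i = 0 := by
        by_contra h
        rw [← ne_eq, c_ne_zero_iff] at h
        have := Nat.le_of_dvd (by omega) (hdn.trans h.1)
        omega
      have z2 : c n (m + i) = 0 := by
        by_contra h
        rw [← ne_eq, c_ne_zero_iff] at h
        have h3 := (Nat.dvd_add_right hdm).1 (hdn.trans h.1)
        have := Nat.le_of_dvd (by omega) h3
        omega
      have z3 : c n (m - i) = 0 := by
        by_contra h
        rw [← ne_eq, c_ne_zero_iff] at h
        have h3 := (Nat.dvd_sub_iff_right (by omega) hdm).1 (hdn.trans h.1)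
        have := Nat.le_of_dvd (by omega) h3
        omega
      rw [z1, z2, z3]; simp
  have hwa : ∀ i, 1 ≤ i → i < 2 ^ (f - 1) → a A (m + i) = a A i ∧
      (-1) ^ i * a A (m - i) = a A i := by
    intro i hi1 hi2
    rw [a_eq A (m + i) (m + i) le_rfl, a_eq A i (m + i) (by omega), a_eq A (m - i) (m + i) (by omega)]
    constructor
    · apply Finset.sum_congr rfl
      intro n _
      split_ifs with h
      · exact (hwin n h i hi1 hi2).1
      · rfl
    · rw [Finset.mul_sum]
      apply Finset.sum_congr rfl
      intro n _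
      split_ifs with h
      · exact (hwin n h i hi1 hi2).2
      · simp
  have habs : ∀ k, |(a A k : ℝ)| ≤ C := by
    intro k
    have := abs_a_le_two A C hC hA hCodd k
    exact_mod_cast this
  have hodd_e : Odd e := Odd.of_dvd_nat hCodd heC
  refine ⟨m, by omega, ?_, habs m, ?_, ?_⟩
  · -- a_m > 0
    have hpos : 0 < a A m := by
      rw [a_eq A m m le_rfl]
      have hnonneg : ∀ n' ∈ Icc 1 m, 0 ≤ (if n' ∈ A then c n' m else 0) := by
        intro n' _
        split_ifs with h
        · unfold c
          split_ifs with h2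
          · -- sign is +1
            obtain ⟨g, e', h3, h4⟩ := hA n' h
            have he' : Odd e' := Odd.of_dvd_nat hCodd h4
            obtain ⟨⟨l, hl⟩, ho⟩ := h2
            have hpos' : 0 < n' := by
              rw [h3]; have := he'.pos; positivity
            rw [hl, Nat.mul_div_cancel_left _ hpos'] at ho
            have hgf : g = f := by
              have h5 : m.factorization 2 = f := by
                rw [hm, Nat.factorization_mul (by positivity) (by omega), Finsupp.add_apply,
                  Nat.Prime.factorization_pow Nat.prime_two,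
                  Nat.factorization_eq_zero_of_not_dvd (by
                    rw [← even_iff_two_dvd, Nat.not_even_iff_odd]; exact hCodd)]
                simp
              have h6 : m.factorization 2 = g := by
                rw [hl, h3, mul_assoc, Nat.factorization_mul (by positivity)
                  (Nat.mul_ne_zero he'.pos.ne' ho.pos.ne'), Finsupp.add_apply,
                  Nat.Prime.factorization_pow Nat.prime_two,
                  Nat.factorization_eq_zero_of_not_dvd (by
                    rw [← even_iff_two_dvd, Nat.not_even_iff_odd]; exact he'.mul ho)]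
                simp
              omega
            have hev : Even ((m - n') / 2) := by
              rw [h3, hgf, hm, ← Nat.mul_sub]
              have : 2 ^ f = 4 * 2 ^ (f - 2) := by
                rw [show (4 : ℕ) = 2 ^ 2 by norm_num, ← pow_add]; congr 1; omega
              rw [this]
              have e5 : 4 * 2 ^ (f - 2) * (C - e') = 2 * (2 * (2 ^ (f - 2) * (C - e'))) := by ring
              rw [e5, Nat.mul_div_cancel_left _ (by norm_num)]
              exact even_two_mul _
            rw [hev.neg_one_pow]; norm_num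
          · exact le_refl _
        · exact le_refl _
      have hmem : n ∈ Icc 1 m := by
        rw [Finset.mem_Icc]
        constructor
        · rcases Nat.eq_zero_or_pos n with h | h
          · subst h; exact absurd hn h0
          · exact h
        · rw [hne, hm]
          exact Nat.mul_le_mul_left _ (Nat.le_of_dvd (by omega) heC)
      have h7 := Finset.single_le_sum hnonneg hmem
      rw [if_pos hn] at h7
      have h8 : c n m ≠ 0 := by
        rw [c_ne_zero_iff]
        obtain ⟨w, hw⟩ := heC
        have hnw : m = n * w := by rw [hm, hne, hw]; ring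
        refine ⟨⟨w, hnw⟩, ?_⟩
        rw [hnw, Nat.mul_div_cancel_left]
        · apply Odd.of_dvd_nat hCodd
          rw [hw]; exact Dvd.intro_left _ rfl
        · exact (Finset.mem_Icc.1 hmem).1
      have h9 := hnonneg n hmem
      rw [if_pos hn] at h9
      omega
    omega
  · intro N
    refine le_trans ?_ (hB0 (B0 + 1) (by omega) (N + 1))
    rw [Finset.sum_range_succ' (fun i => if B0 + 1 ≤ i then 2 * (C : ℝ) * x ^ i else 0)]
    rw [if_neg (by omega), add_zero]
    apply Finset.sum_le_sum
    intro i _
    by_cases hi : i + 1 < 2 ^ (f - 1)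
    · rw [(hwa (i + 1) (by omega) hi).1]
      rw [sub_self, abs_zero, zero_mul]
      split_ifs <;> positivity
    · rw [if_pos (by omega)]
      apply mul_le_mul_of_nonneg_right _ (by positivity)
      refine (abs_sub _ _).trans ?_
      linarith [habs (m + (i + 1)), habs (i + 1)]
  · intro N
    refine le_trans ?_ (hB0 (B0 + 1) (by omega) (N + 1))
    rw [Finset.sum_range_succ' (fun i => if B0 + 1 ≤ i then 2 * (C : ℝ) * x ^ i else 0)]
    rw [if_neg (by omega), add_zero]
    apply Finset.sum_le_sum
    intro i _
    by_cases hi : i + 1 < 2 ^ (f - 1)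
    · have h10 := (hwa (i + 1) (by omega) hi).2
      have h11 : ((-1 : ℝ)) ^ (i + 1) * (a A (m - (i + 1)) : ℝ) = (a A (i + 1) : ℝ) := by
        exact_mod_cast h10
      rw [h11, sub_self, abs_zero, zero_mul]
      split_ifs <;> positivity
    · rw [if_pos (by omega)]
      apply mul_le_mul_of_nonneg_right _ (by positivity)
      refine (abs_sub _ _).trans ?_
      rw [abs_mul, abs_pow, abs_neg, abs_one, one_pow, one_mul]
      linarith [habs (m - (i + 1)), habs (i + 1)]

end Pool.Agent.Helper9.Fib
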