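import Mathlib
import Pool.Agent.Helper9.Fib.CaseTwo

/-!
Case I, part A : arithmetic of the windows.
-/

open Finset Real

namespace Pool.Agent.Helper9.Fib

lemma dvd_prod_three {d Ma Mb Mc : ℕ} {k va vb vc : ℤ} (hd : d ∣ Ma * (Mb * Mc)) (hk : (d : ℤ) ∣ k)
    (ha : (Ma : ℤ) ∣ 3 * k - va) (hb : (Mb : ℤ) ∣ 2 * k - vb) (hc : (Mc : ℤ) ∣ 2 * k - vc) :
    d ∣ (va * (vb * vc)).natAbs := by
  obtain ⟨d1, d', h1, h', rfl⟩ := exists_dvd_and_dvd_of_dvd_mul hd
  obtain ⟨d2, d3, h2, h3, rfl⟩ := exists_dvd_and_dvd_of_dvd_mul h'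
  have k1 : (d1 : ℤ) ∣ k := by
    exact (Int.natCast_dvd_natCast.2 (show d1 ∣ d1 * (d2 * d3) from ⟨d2 * d3, rfl⟩)).trans hk
  have k2 : (d2 : ℤ) ∣ k := by
    exact (Int.natCast_dvd_natCast.2 (show d2 ∣ d1 * (d2 * d3) from ⟨d1 * d3, by ring⟩)).trans hk
  have k3 : (d3 : ℤ) ∣ k := by
    exact (Int.natCast_dvd_natCast.2 (show d3 ∣ d1 * (d2 * d3) from ⟨d1 * d2, by ring⟩)).trans hk
  have e1 : (d1 : ℤ) ∣ va := by
    have h4 : (d1 : ℤ) ∣ 3 * k - va := (Int.natCast_dvd_natCast.2 h1).trans ha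
    have h5 : (d1 : ℤ) ∣ 3 * k := Dvd.dvd.mul_left k1 3
    have := dvd_sub h5 h4
    simpa using this
  have e2 : (d2 : ℤ) ∣ vb := by
    have h4 : (d2 : ℤ) ∣ 2 * k - vb := (Int.natCast_dvd_natCast.2 h2).trans hb
    have h5 : (d2 : ℤ) ∣ 2 * k := Dvd.dvd.mul_left k2 2
    have := dvd_sub h5 h4
    simpa using this
  have e3 : (d3 : ℤ) ∣ vc := by
    have h4 : (d3 : ℤ) ∣ 2 * k - vc := (Int.natCast_dvd_natCast.2 h3).trans hc
    have h5 : (d3 : ℤ) ∣ 2 * k := Dvd.dvd.mul_left k3 2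
    have := dvd_sub h5 h4
    simpa using this
  rw [← Int.natCast_dvd]
  push_cast
  exact mul_dvd_mul e1 (mul_dvd_mul e2 e3)

lemma card_divisors_le {S : Finset ℕ} {u ns G : ℕ} (hu : 0 < u) (hun : u ≤ ns * G) (hns : 0 < ns)
    (h : ∀ n ∈ S, n ∣ u ∧ ns ≤ n) : S.card ≤ G := by
  have : S.card ≤ (Icc 1 G).card := by
    apply Finset.card_le_card_of_injOn (fun n => u / n)
    · intro n hn
      obtain ⟨h1, h2⟩ := h n hn
      rw [Finset.mem_coe, Finset.mem_Icc]
      constructor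
      · exact Nat.div_pos (Nat.le_of_dvd hu h1) (by omega)
      · calc u / n ≤ u / ns := Nat.div_le_div_left h2 hns
          _ ≤ (ns * G) / ns := Nat.div_le_div_right hun
          _ = G := Nat.mul_div_cancel_left _ hns
    · intro n hn n' hn' hnn
      obtain ⟨h1, h2⟩ := h n hn
      obtain ⟨h1', h2'⟩ := h n' hn'
      obtain ⟨w, hw⟩ := h1
      obtain ⟨w', hw'⟩ := h1'
      have hnpos : 0 < n := by omega
      have hnpos' : 0 < n' := by omega
      have e1 : u / n = w := by rw [hw, Nat.mul_div_cancel_left _ hnpos]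
      have e2 : u / n' = w' := by rw [hw', Nat.mul_div_cancel_left _ hnpos']
      simp only at hnn
      rw [e1, e2] at hnn
      have hwpos : 0 < w := by
        rcases Nat.eq_zero_or_pos w with h0 | h0
        · subst h0; omega
        · exact h0
      have : n * w = n' * w := by
        rw [← hw, hw', hnn]
      exact Nat.eq_of_mul_eq_mul_right hwpos this
  simpa using this

lemma c_congr {n k k' : ℕ} (hn : 1 ≤ n) (hk : 1 ≤ k) (hk' : 1 ≤ k')
    (h : ((4 * n : ℕ) : ℤ) ∣ (k : ℤ) - k') : c n k = c n k' := by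
  rcases le_total k' k with hle | hle
  · obtain ⟨d, rfl⟩ := Nat.exists_eq_add_of_le hle
    apply c_add hn _ hk'
    have : ((k' + d : ℕ) : ℤ) - k' = (d : ℤ) := by push_cast; ring
    rw [this] at h
    exact_mod_cast h
  · obtain ⟨d, rfl⟩ := Nat.exists_eq_add_of_le hle
    symm
    apply c_add hn _ hk
    have : (k : ℤ) - ((k + d : ℕ) : ℤ) = -(d : ℤ) := by push_cast; ring
    rw [this, dvd_neg] at h
    exact_mod_cast h

/-- elements of `A` up to `L2`, divisible by `q`, dividing `k`. -/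
noncomputable def NN (A : Set ℕ) (L2 q k : ℕ) : Finset ℕ := by
  classical exact (Icc 1 L2).filter (fun n => n ∈ A ∧ q ∣ n ∧ n ∣ k)

/-- elements of `A` larger than `L2` dividing `k`. -/
noncomputable def Om (A : Set ℕ) (L2 k : ℕ) : Finset ℕ := by
  classical exact (Icc 1 k).filter (fun n => n ∈ A ∧ L2 < n ∧ n ∣ k)

lemma mem_NN {A : Set ℕ} {L2 q k n : ℕ} :
    n ∈ NN A L2 q k ↔ (1 ≤ n ∧ n ≤ L2) ∧ n ∈ A ∧ q ∣ n ∧ n ∣ k := by
  classical
  unfold NN
  rw [Finset.mem_filter, Finset.mem_Icc]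

lemma mem_Om {A : Set ℕ} {L2 k n : ℕ} :
    n ∈ Om A L2 k ↔ (1 ≤ n ∧ n ≤ k) ∧ n ∈ A ∧ L2 < n ∧ n ∣ k := by
  classical
  unfold Om
  rw [Finset.mem_filter, Finset.mem_Icc]

lemma abs_c_le_dvd (n k : ℕ) : |c n k| ≤ if n ∣ k then 1 else 0 := by
  split_ifs with h
  · exact abs_c_le n k
  · have : c n k = 0 := by
      by_contra h2
      rw [← ne_eq, c_ne_zero_iff] at h2
      exact h h2.1
    rw [this]; simp

/-- comparison of coefficients in two windows. -/
lemma window (A : Set ℕ) (L2 q : ℕ) {k k' : ℕ} (hk : 1 ≤ k) (hk' : 1 ≤ k')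
    (same : ∀ n ∈ A, 1 ≤ n → n ≤ L2 → ¬ q ∣ n → c n k = c n k') :
    |a A k - a A k'| ≤ (NN A L2 q k).card + (NN A L2 q k').card + (Om A L2 k).card +
      (Om A L2 k').card := by
  classical
  set Y := k + k' + L2 with hY
  rw [a_eq A k Y (by omega), a_eq A k' Y (by omega), ← Finset.sum_sub_distrib]
  have e1 : ((NN A L2 q k).card : ℤ) = ∑ n ∈ Icc 1 Y, if n ∈ NN A L2 q k then 1 else 0 := by
    rw [Finset.sum_ite_mem, Finset.sum_const, nsmul_eq_mul, mul_one]
    congr 2
    symm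
    rw [Finset.inter_eq_right]
    intro n hn
    rw [mem_NN] at hn
    rw [Finset.mem_Icc]; omega
  have e2 : ((NN A L2 q k').card : ℤ) = ∑ n ∈ Icc 1 Y, if n ∈ NN A L2 q k' then 1 else 0 := by
    rw [Finset.sum_ite_mem, Finset.sum_const, nsmul_eq_mul, mul_one]
    congr 2
    symm
    rw [Finset.inter_eq_right]
    intro n hn
    rw [mem_NN] at hn
    rw [Finset.mem_Icc]; omega
  have e3 : ((Om A L2 k).card : ℤ) = ∑ n ∈ Icc 1 Y, if n ∈ Om A L2 k then 1 else 0 := by
    rw [Finset.sum_ite_mem, Finset.sum_const, nsmul_eq_mul, mul_one]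
    congr 2
    symm
    rw [Finset.inter_eq_right]
    intro n hn
    rw [mem_Om] at hn
    rw [Finset.mem_Icc]; omega
  have e4 : ((Om A L2 k').card : ℤ) = ∑ n ∈ Icc 1 Y, if n ∈ Om A L2 k' then 1 else 0 := by
    rw [Finset.sum_ite_mem, Finset.sum_const, nsmul_eq_mul, mul_one]
    congr 2
    symm
    rw [Finset.inter_eq_right]
    intro n hn
    rw [mem_Om] at hn
    rw [Finset.mem_Icc]; omega
  rw [e1, e2, e3, e4, ← Finset.sum_add_distrib, ← Finset.sum_add_distrib, ← Finset.sum_add_distrib]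
  refine (Finset.abs_sum_le_sum_abs _ _).trans ?_
  apply Finset.sum_le_sum
  intro n hn
  rw [Finset.mem_Icc] at hn
  have p1 : (0 : ℤ) ≤ if n ∈ NN A L2 q k then 1 else 0 := by split_ifs <;> norm_num
  have p2 : (0 : ℤ) ≤ if n ∈ NN A L2 q k' then 1 else 0 := by split_ifs <;> norm_num
  have p3 : (0 : ℤ) ≤ if n ∈ Om A L2 k then 1 else 0 := by split_ifs <;> norm_num
  have p4 : (0 : ℤ) ≤ if n ∈ Om A L2 k' then 1 else 0 := by split_ifs <;> norm_num
  by_cases hA : n ∈ A
  · rw [if_pos hA, if_pos hA]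
    by_cases hL : n ≤ L2
    · by_cases hq : q ∣ n
      · have h1 : |c n k| ≤ if n ∈ NN A L2 q k then 1 else 0 := by
          refine (abs_c_le_dvd n k).trans ?_
          split_ifs with h2 h3 h3
          · exact le_refl _
          · exact absurd (mem_NN.2 ⟨⟨hn.1, hL⟩, hA, hq, h2⟩) h3
          · norm_num
          · exact le_refl _
        have h2 : |c n k'| ≤ if n ∈ NN A L2 q k' then 1 else 0 := by
          refine (abs_c_le_dvd n k').trans ?_
          split_ifs with h2 h3 h3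
          · exact le_refl _
          · exact absurd (mem_NN.2 ⟨⟨hn.1, hL⟩, hA, hq, h2⟩) h3
          · norm_num
          · exact le_refl _
        have h3 := abs_sub (c n k) (c n k')
        linarith
      · rw [same n hA hn.1 hL hq, sub_self, abs_zero]
        positivity
    · have h1 : |c n k| ≤ if n ∈ Om A L2 k then 1 else 0 := by
        refine (abs_c_le_dvd n k).trans ?_
        split_ifs with h2 h3 h3
        · exact le_refl _
        · exact absurd (mem_Om.2 ⟨⟨hn.1, Nat.le_of_dvd (by omega) h2⟩, hA, by omega, h2⟩) h3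
        · norm_num
        · exact le_refl _
      have h2 : |c n k'| ≤ if n ∈ Om A L2 k' then 1 else 0 := by
        refine (abs_c_le_dvd n k').trans ?_
        split_ifs with h2 h3 h3
        · exact le_refl _
        · exact absurd (mem_Om.2 ⟨⟨hn.1, Nat.le_of_dvd (by omega) h2⟩, hA, by omega, h2⟩) h3
        · norm_num
        · exact le_refl _
      have h3 := abs_sub (c n k) (c n k')
      linarith
  · rw [if_neg hA, if_neg hA, sub_self, abs_zero]
    positivity

/-- the central difference. -/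
lemma window_zero (A : Set ℕ) (L2 q ns : ℕ) {k k' : ℕ} (hk : 1 ≤ k) (hk' : 1 ≤ k')
    (same : ∀ n ∈ A, 1 ≤ n → n ≤ L2 → ¬ q ∣ n → c n k = c n k')
    (hns : ns ∈ A) (hns1 : 1 ≤ ns) (hnsL : ns ≤ L2) (hnsq : q ∣ ns)
    (h1 : ∀ n ∈ NN A L2 q k, n = ns) (h2 : NN A L2 q k' = ∅) (h3 : Om A L2 k = ∅)
    (h4 : Om A L2 k' = ∅) (h5 : c ns k ≠ 0) : |a A k - a A k'| = 1 := by
  classical
  set Y := k + k' + L2 with hY
  rw [a_eq A k Y (by omega), a_eq A k' Y (by omega), ← Finset.sum_sub_distrib]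
  rw [Finset.sum_eq_single ns]
  · rw [if_pos hns, if_pos hns]
    have e1 : c ns k' = 0 := by
      by_contra h
      rw [← ne_eq, c_ne_zero_iff] at h
      have : ns ∈ NN A L2 q k' := mem_NN.2 ⟨⟨hns1, hnsL⟩, hns, hnsq, h.1⟩
      rw [h2] at this
      exact absurd this (Finset.notMem_empty _)
    rw [e1, sub_zero]
    have h6 := abs_c_le ns k
    have h7 := Int.one_le_abs h5
    omega
  · intro n hn hne
    rw [Finset.mem_Icc] at hn
    split_ifs with hA
    · by_cases hL : n ≤ L2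
      · by_cases hq : q ∣ n
        · have z1 : c n k = 0 := by
            by_contra h
            rw [← ne_eq, c_ne_zero_iff] at h
            exact hne (h1 n (mem_NN.2 ⟨⟨hn.1, hL⟩, hA, hq, h.1⟩))
          have z2 : c n k' = 0 := by
            by_contra h
            rw [← ne_eq, c_ne_zero_iff] at h
            have : n ∈ NN A L2 q k' := mem_NN.2 ⟨⟨hn.1, hL⟩, hA, hq, h.1⟩
            rw [h2] at this
            exact absurd this (Finset.notMem_empty _)
          rw [z1, z2]; rfl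
        · rw [same n hA hn.1 hL hq, sub_self]
      · have z1 : c n k = 0 := by
          by_contra h
          rw [← ne_eq, c_ne_zero_iff] at h
          have : n ∈ Om A L2 k := mem_Om.2 ⟨⟨hn.1, Nat.le_of_dvd (by omega) h.1⟩, hA, by omega, h.1⟩
          rw [h3] at this
          exact absurd this (Finset.notMem_empty _)
        have z2 : c n k' = 0 := by
          by_contra h
          rw [← ne_eq, c_ne_zero_iff] at h
          have : n ∈ Om A L2 k' := mem_Om.2 ⟨⟨hn.1, Nat.le_of_dvd (by omega) h.1⟩, hA, by omega, h.1⟩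
          rw [h4] at this
          exact absurd this (Finset.notMem_empty _)
        rw [z1, z2]; rfl
    · rfl
  · intro h
    exact absurd (Finset.mem_Icc.2 ⟨hns1, by omega⟩) h

end Pool.Agent.Helper9.Fib
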