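import Mathlib
import Pool.Agent.Helper9.Fib.WindowA

/-!
Case I, part B : residues and averaging.
-/

open Finset Real

namespace Pool.Agent.Helper9.Fib

lemma solve_one {c M : ℕ} (hc : Nat.Coprime c M) (hM : 0 < M) (v : ℤ) :
    ∃ y : ℕ, (M : ℤ) ∣ c * y - v := by
  obtain ⟨a, b, hab⟩ := (Nat.isCoprime_iff_coprime.2 hc)
  refine ⟨((a * v) % M).toNat, ?_⟩
  have hM' : (M : ℤ) ≠ 0 := by positivity
  rw [Int.toNat_of_nonneg (Int.emod_nonneg _ hM')]
  have h1 := Int.emod_add_mul_ediv (a * v) M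
  refine ⟨-(b * v) - c * (a * v / M), ?_⟩
  have h2 : a * v % M = a * v - M * (a * v / M) := by linarith
  rw [h2]
  linear_combination v * hab

lemma crt2 {M N : ℕ} (hM : 0 < M) (hN : 0 < N) (h : Nat.Coprime M N) (y z : ℕ) :
    ∃ r : ℕ, r < M * N ∧ (M : ℤ) ∣ (r : ℤ) - y ∧ (N : ℤ) ∣ (r : ℤ) - z := by
  refine ⟨Nat.chineseRemainder h y z, Nat.chineseRemainder_lt_mul h y z hM.ne' hN.ne', ?_, ?_⟩
  · have := (Nat.chineseRemainder h y z).2.1
    exact (Nat.modEq_iff_dvd.1 this.symm)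
  · have := (Nat.chineseRemainder h y z).2.2
    exact (Nat.modEq_iff_dvd.1 this.symm)

lemma crt3 {Ma Mb Mc : ℕ} (ha : 0 < Ma) (hb : 0 < Mb) (hc : 0 < Mc)
    (hab : Nat.Coprime Ma (Mb * Mc)) (hbc : Nat.Coprime Mb Mc) (h3 : Nat.Coprime 3 Ma)
    (h2b : Nat.Coprime 2 Mb) (h2c : Nat.Coprime 2 Mc) (va vb vc : ℤ) :
    ∃ r : ℕ, r < Ma * (Mb * Mc) ∧ (Ma : ℤ) ∣ 3 * (r : ℤ) - va ∧ (Mb : ℤ) ∣ 2 * (r : ℤ) - vb ∧
      (Mc : ℤ) ∣ 2 * (r : ℤ) - vc := by
  obtain ⟨ya, hya⟩ := solve_one h3 ha va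
  obtain ⟨yb, hyb⟩ := solve_one h2b hb vb
  obtain ⟨yc, hyc⟩ := solve_one h2c hc vc
  obtain ⟨z, _, hz1, hz2⟩ := crt2 hb hc hbc yb yc
  obtain ⟨r, hr, hr1, hr2⟩ := crt2 ha (Nat.mul_pos hb hc) hab ya z
  push_cast at hya hyb hyc
  refine ⟨r, hr, ?_, ?_, ?_⟩
  · have h := dvd_add (Dvd.dvd.mul_left hr1 3) hya
    have e : 3 * ((r : ℤ) - ya) + (3 * ya - va) = 3 * r - va := by ring
    rwa [e] at h
  · have h1 : (Mb : ℤ) ∣ (r : ℤ) - z := (Int.natCast_dvd_natCast.2 (Dvd.intro _ rfl)).trans hr2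
    have h := dvd_add (dvd_add (Dvd.dvd.mul_left h1 2) (Dvd.dvd.mul_left hz1 2)) hyb
    have e : 2 * ((r : ℤ) - z) + 2 * ((z : ℤ) - yb) + (2 * yb - vb) = 2 * r - vb := by ring
    rwa [e] at h
  · have h1 : (Mc : ℤ) ∣ (r : ℤ) - z := (Int.natCast_dvd_natCast.2 (Dvd.intro_left _ rfl)).trans hr2
    have h := dvd_add (dvd_add (Dvd.dvd.mul_left h1 2) (Dvd.dvd.mul_left hz2 2)) hyc
    have e : 2 * ((r : ℤ) - z) + 2 * ((z : ℤ) - yc) + (2 * yc - vc) = 2 * r - vc := by ring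
    rwa [e] at h

lemma count_cong {X w : ℕ} (S : Finset ℕ) (hS : S ⊆ Ico X (2 * X))
    (hcong : ∀ t ∈ S, ∀ t' ∈ S, t ≡ t' [MOD w]) : S.card ≤ X / w + 1 := by
  have : S.card ≤ (range (X / w + 1)).card := by
    apply Finset.card_le_card_of_injOn (fun t => (t - X) / w)
    · intro t ht
      have h1 := Finset.mem_Ico.1 (hS ht)
      rw [Finset.mem_coe, Finset.mem_range]
      have : (t - X) / w ≤ X / w := Nat.div_le_div_right (by omega)
      show (t - X) / w < X / w + 1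
      omega
    · intro t ht t' ht' heq
      have h1 := Finset.mem_Ico.1 (hS ht)
      have h1' := Finset.mem_Ico.1 (hS ht')
      have h2 := hcong t ht t' ht'
      have h3 : (t - X) % w = (t' - X) % w := by
        have : (X + (t - X)) ≡ (X + (t' - X)) [MOD w] := by
          rw [Nat.add_sub_cancel' h1.1, Nat.add_sub_cancel' h1'.1]; exact h2
        exact Nat.ModEq.add_left_cancel' X this
      have h4 := Nat.mod_add_div (t - X) w
      have h5 := Nat.mod_add_div (t' - X) w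
      simp only at heq
      rw [heq, h3, h5] at h4
      omega
  simpa using this

lemma count_dvd {n M X : ℕ} {s : ℤ} {U : ℝ} (hn : 0 < n) (hU0 : 0 ≤ U)
    (hU : ∀ d : ℕ, d ∣ M → (d : ℤ) ∣ s → (d : ℝ) ≤ U) :
    (((Ico X (2 * X)).filter (fun t : ℕ => (n : ℤ) ∣ s + M * t)).card : ℝ) ≤ X * U / n + 1 := by
  set S := (Ico X (2 * X)).filter (fun t : ℕ => (n : ℤ) ∣ s + M * t) with hS
  rcases S.eq_empty_or_nonempty with h | ⟨t0, ht0⟩
  · rw [h]; simp; positivity
  · set g := Nat.gcd n M with hg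
    have hgpos : 0 < g := Nat.gcd_pos_of_pos_left _ hn
    have ht0' := (Finset.mem_filter.1 ht0).2
    have hgs : (g : ℤ) ∣ s := by
      have h1 : (g : ℤ) ∣ s + M * t0 :=
        (Int.natCast_dvd_natCast.2 (Nat.gcd_dvd_left n M)).trans ht0'
      have h2 : (g : ℤ) ∣ M * t0 :=
        Dvd.dvd.mul_right (Int.natCast_dvd_natCast.2 (Nat.gcd_dvd_right n M)) _
      exact (Int.dvd_add_left h2).1 h1
    have hgU := hU g (Nat.gcd_dvd_right n M) hgs
    obtain ⟨w, hw⟩ := Nat.gcd_dvd_left n M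
    rw [← hg] at hw
    have hwpos : 0 < w := by
      rcases Nat.eq_zero_or_pos w with h | h
      · rw [h, mul_zero] at hw; omega
      · exact h
    have hcong : ∀ t ∈ S, ∀ t' ∈ S, t ≡ t' [MOD w] := by
      intro t ht t' ht'
      have a1 := (Finset.mem_filter.1 ht).2
      have a2 := (Finset.mem_filter.1 ht').2
      have a3 : (n : ℤ) ∣ (s + M * t') - (s + M * t) := dvd_sub a2 a1
      obtain ⟨M', hM'⟩ := Nat.gcd_dvd_right n M
      rw [← hg] at hM'
      have hcop : Nat.Coprime w M' := by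
        have := Nat.coprime_div_gcd_div_gcd (m := n) (n := M) hgpos
        have e1 : n / Nat.gcd n M = w := by
          rw [← hg]; exact Nat.div_eq_of_eq_mul_right hgpos hw
        have e2 : M / Nat.gcd n M = M' := by
          rw [← hg]; exact Nat.div_eq_of_eq_mul_right hgpos hM'
        rwa [e1, e2] at this
      have e : (s + M * t') - (s + M * t) = (g : ℤ) * ((M' : ℤ) * ((t' : ℤ) - t)) := by
        rw [show (M : ℤ) = g * M' by exact_mod_cast hM']; ring
      rw [e, show (n : ℤ) = g * w by exact_mod_cast hw] at a3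
      have a4 : (w : ℤ) ∣ (M' : ℤ) * ((t' : ℤ) - t) :=
        Int.dvd_of_mul_dvd_mul_left (by exact_mod_cast hgpos.ne') a3
      have a5 : IsCoprime (w : ℤ) (M' : ℤ) := Nat.isCoprime_iff_coprime.2 hcop
      have a6 := a5.dvd_of_dvd_mul_left a4
      exact Nat.modEq_iff_dvd.2 a6
    have hc := count_cong S (Finset.filter_subset _ _) hcong
    have hc' : (S.card : ℝ) ≤ ((X / w : ℕ) : ℝ) + 1 := by exact_mod_cast hc
    have h1 : ((X / w : ℕ) : ℝ) ≤ (X : ℝ) / w := Nat.cast_div_le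
    have h2 : (X : ℝ) / w ≤ X * U / n := by
      have hwr : (0 : ℝ) < w := by exact_mod_cast hwpos
      have hnr : (0 : ℝ) < n := by exact_mod_cast hn
      rw [div_le_div_iff₀ hwr hnr]
      have : (n : ℝ) = g * w := by exact_mod_cast hw
      rw [this]
      have h3 : (X : ℝ) * (g * w) = (X * w) * g := by ring
      have h4 : (X : ℝ) * U * w = (X * w) * U := by ring
      rw [h3, h4]
      exact mul_le_mul_of_nonneg_left hgU (by positivity)
    linarith

/-- number of elements of `A` in `[1, Y]`. -/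
noncomputable def cA (A : Set ℕ) (Y : ℕ) : ℕ := by
  classical exact ((Icc 1 Y).filter (fun n => n ∈ A)).card

/-- tail of the sum of reciprocals. -/
noncomputable def tl (A : Set ℕ) (L2 Y : ℕ) : ℝ := by
  classical exact ∑ n ∈ Icc 1 Y, if n ∈ A ∧ L2 < n then (1 : ℝ) / n else 0

/-- weights. -/
noncomputable def wA (A : Set ℕ) (n : ℕ) : ℝ := by
  classical exact if n ∈ A then (1 : ℝ) / n else 0

lemma wA_nonneg (A : Set ℕ) (n : ℕ) : 0 ≤ wA A n := by
  unfold wA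
  split_ifs
  · positivity
  · exact le_refl _

lemma tl_small {A : Set ℕ} (hs : Summable (wA A)) {δ : ℝ} (hδ : 0 < δ) :
    ∃ L0 : ℕ, ∀ L2, L0 ≤ L2 → ∀ Y, tl A L2 Y ≤ δ := by
  classical
  obtain ⟨B0, hB0⟩ := tail_small (wA A) hs (wA_nonneg A) δ hδ
  refine ⟨B0, fun L2 hL Y => ?_⟩
  refine le_trans ?_ (hB0 (L2 + 1) (by omega) (Y + 1))
  unfold tl
  have hsub : Icc 1 Y ⊆ range (Y + 1) := by
    intro n hn
    rw [Finset.mem_Icc] at hn
    rw [Finset.mem_range]; omega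
  calc ∑ n ∈ Icc 1 Y, (if n ∈ A ∧ L2 < n then (1 : ℝ) / n else 0)
      ≤ ∑ n ∈ Icc 1 Y, (if L2 + 1 ≤ n then wA A n else 0) := by
        apply Finset.sum_le_sum
        intro n _
        by_cases h1 : n ∈ A
        · by_cases h2 : L2 < n
          · rw [if_pos ⟨h1, h2⟩, if_pos (by omega)]
            unfold wA
            rw [if_pos h1]
          · rw [if_neg (fun h => h2 h.2), if_neg (by omega)]
        · rw [if_neg (fun h => h1 h.1)]
          split_ifs
          · exact wA_nonneg A n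
          · exact le_refl _
    _ ≤ ∑ n ∈ range (Y + 1), (if L2 + 1 ≤ n then wA A n else 0) := by
        apply Finset.sum_le_sum_of_subset_of_nonneg hsub
        intro n _ _
        split_ifs
        · exact wA_nonneg A n
        · exact le_refl _

lemma cA_small {A : Set ℕ} (hs : Summable (wA A)) {η : ℝ} (hη : 0 < η) :
    ∃ C : ℕ, ∀ Y : ℕ, (cA A Y : ℝ) ≤ η * Y + C := by
  classical
  obtain ⟨L0, hL0⟩ := tl_small hs hη
  refine ⟨L0, fun Y => ?_⟩
  have h1 := hL0 L0 le_rfl Y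
  unfold cA
  have hsub : (Icc 1 Y).filter (fun n => n ∈ A) ⊆
      (Icc 1 L0) ∪ (Icc 1 Y).filter (fun n => n ∈ A ∧ L0 < n) := by
    intro n hn
    rw [Finset.mem_filter, Finset.mem_Icc] at hn
    rw [Finset.mem_union, Finset.mem_filter, Finset.mem_Icc, Finset.mem_Icc]
    by_cases h : n ≤ L0
    · left; omega
    · right; exact ⟨hn.1, hn.2, by omega⟩
  have h2 : ((Icc 1 Y).filter (fun n => n ∈ A)).card ≤
      L0 + ((Icc 1 Y).filter (fun n => n ∈ A ∧ L0 < n)).card := by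
    refine (Finset.card_le_card hsub).trans ((Finset.card_union_le _ _).trans ?_)
    simp
  have h3 : (((Icc 1 Y).filter (fun n => n ∈ A ∧ L0 < n)).card : ℝ) ≤ η * Y := by
    have h4 : (((Icc 1 Y).filter (fun n => n ∈ A ∧ L0 < n)).card : ℝ) =
        ∑ n ∈ Icc 1 Y, if n ∈ A ∧ L0 < n then (1 : ℝ) else 0 := by
      rw [Finset.sum_boole]
    rw [h4]
    calc ∑ n ∈ Icc 1 Y, (if n ∈ A ∧ L0 < n then (1 : ℝ) else 0)
        ≤ ∑ n ∈ Icc 1 Y, (Y : ℝ) * (if n ∈ A ∧ L0 < n then (1 : ℝ) / n else 0) := by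
          apply Finset.sum_le_sum
          intro n hn
          rw [Finset.mem_Icc] at hn
          split_ifs
          · have : (0 : ℝ) < n := by exact_mod_cast hn.1
            rw [mul_one_div, le_div_iff₀ this, one_mul]
            exact_mod_cast hn.2
          · simp
      _ = Y * tl A L0 Y := by
          unfold tl
          rw [Finset.mul_sum]
      _ ≤ Y * η := by
          apply mul_le_mul_of_nonneg_left h1
          positivity
      _ = η * Y := mul_comm _ _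
  have h2' : (((Icc 1 Y).filter (fun n => n ∈ A)).card : ℝ) ≤
      L0 + ((Icc 1 Y).filter (fun n => n ∈ A ∧ L0 < n)).card := by exact_mod_cast h2
  linarith

lemma om_sum {A : Set ℕ} {L2 M X Y : ℕ} {s : ℤ} {U δ : ℝ} (hU0 : 0 ≤ U)
    (hU : ∀ d : ℕ, d ∣ M → (d : ℤ) ∣ s → (d : ℝ) ≤ U)
    (hδ : tl A L2 Y ≤ δ) (k : ℕ → ℕ)
    (hk : ∀ t ∈ Ico X (2 * X), 1 ≤ k t → (k t : ℤ) = s + M * t)
    (hkY : ∀ t ∈ Ico X (2 * X), k t ≤ Y) :
    ∑ t ∈ Ico X (2 * X), ((Om A L2 (k t)).card : ℝ) ≤ X * U * δ + cA A Y := by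
  classical
  have h1 : ∀ t ∈ Ico X (2 * X), ((Om A L2 (k t)).card : ℝ) ≤
      ∑ n ∈ Icc 1 Y, if n ∈ A ∧ L2 < n ∧ (n : ℤ) ∣ s + M * t then (1 : ℝ) else 0 := by
    intro t ht
    rw [Finset.sum_boole]
    have : (Om A L2 (k t)).card ≤
        ((Icc 1 Y).filter (fun n : ℕ => n ∈ A ∧ L2 < n ∧ (n : ℤ) ∣ s + M * t)).card := by
      apply Finset.card_le_card
      intro n hn
      rw [mem_Om] at hn
      rw [Finset.mem_filter, Finset.mem_Icc]
      have hkt : 1 ≤ k t := by omega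
      refine ⟨⟨hn.1.1, hn.1.2.trans (hkY t ht)⟩, hn.2.1, hn.2.2.1, ?_⟩
      rw [← hk t ht hkt]
      exact_mod_cast hn.2.2.2
    exact_mod_cast this
  refine (Finset.sum_le_sum h1).trans ?_
  rw [Finset.sum_comm]
  have h2 : ∀ n ∈ Icc 1 Y, (∑ t ∈ Ico X (2 * X),
      if n ∈ A ∧ L2 < n ∧ (n : ℤ) ∣ s + M * t then (1 : ℝ) else 0) ≤
      (X * U) * (if n ∈ A ∧ L2 < n then (1 : ℝ) / n else 0) + (if n ∈ A then 1 else 0) := by
    intro n hn
    rw [Finset.mem_Icc] at hn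
    by_cases hA : n ∈ A ∧ L2 < n
    · rw [if_pos hA, if_pos hA.1, mul_one_div]
      have h3 := count_dvd (X := X) (show 0 < n by omega) hU0 hU
      refine le_trans ?_ h3
      rw [Finset.sum_boole]
      apply le_of_eq
      congr 2
      ext t
      rw [Finset.mem_filter, Finset.mem_filter]
      tauto
    · have : ∀ t ∈ Ico X (2 * X),
          (if n ∈ A ∧ L2 < n ∧ (n : ℤ) ∣ s + M * t then (1 : ℝ) else 0) = 0 := by
        intro t _
        rw [if_neg]
        rintro ⟨a1, a2, _⟩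
        exact hA ⟨a1, a2⟩
      rw [Finset.sum_eq_zero this, if_neg hA, mul_zero, zero_add]
      split_ifs <;> norm_num
  refine (Finset.sum_le_sum h2).trans ?_
  rw [Finset.sum_add_distrib, ← Finset.mul_sum]
  have e1 : ∑ n ∈ Icc 1 Y, (if n ∈ A ∧ L2 < n then (1 : ℝ) / n else 0) = tl A L2 Y := by
    unfold tl; rfl
  have e2 : ∑ n ∈ Icc 1 Y, (if n ∈ A then (1 : ℝ) else 0) = cA A Y := by
    unfold cA
    rw [Finset.sum_boole]
  rw [e1, e2]
  have : (X : ℝ) * U * tl A L2 Y ≤ X * U * δ := mul_le_mul_of_nonneg_left hδ (by positivity)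
  linarith

end Pool.Agent.Helper9.Fib
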