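import Mathlib
import Pool.Agent.Helper9.Fib.WindowB

/-!
Case I, part C : choice of a good shift.
-/

open Finset Real

namespace Pool.Agent.Helper9.Fib

/-- a base point of the windows. -/
def IsBase (M q ns : ℕ) (G : ℕ → ℕ) (r : ℕ) : Prop :=
  ∀ j : ℤ, (∃ u : ℕ, 0 < u ∧ u ≤ ns * G j.natAbs ∧ ∀ d : ℕ, d ∣ M → (d : ℤ) ∣ (r : ℤ) + j → d ∣ u) ∧
    ((q : ℤ) ∣ (r : ℤ) + j → j ≠ 0 → q ≤ 3 * j.natAbs)

lemma avg_base {A : Set ℕ} {L2 M q ns r X i : ℕ} {G : ℕ → ℕ} {δ η : ℝ} {C : ℕ}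
    (hr : r < M) (hb : IsBase M q ns G r) (hδ : ∀ Y, tl A L2 Y ≤ δ)
    (hη : ∀ Y : ℕ, (cA A Y : ℝ) ≤ η * Y + C) :
    (∑ t ∈ Ico X (2 * X), ((Om A L2 (r + M * t + i)).card : ℝ) ≤
      X * (ns * G i) * δ + (η * (M * (2 * X) + M + i) + C)) ∧
    (∑ t ∈ Ico X (2 * X), ((Om A L2 (r + M * t - i)).card : ℝ) ≤
      X * (ns * G i) * δ + (η * (M * (2 * X) + M + i) + C)) := by
  have hY : ∀ t ∈ Ico X (2 * X), r + M * t + i ≤ M * (2 * X) + M + i := by
    intro t ht
    rw [Finset.mem_Ico] at ht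
    have : M * t ≤ M * (2 * X) := Nat.mul_le_mul_left M (by omega)
    omega
  have hη' := hη (M * (2 * X) + M + i)
  push_cast at hη'
  constructor
  · refine le_trans (om_sum (M := M) (Y := M * (2 * X) + M + i) (s := (r : ℤ) + i)
      (U := (ns : ℝ) * G i) (by positivity) ?_ (hδ _) _ ?_ hY) ?_
    · intro d hd hds
      obtain ⟨⟨u, hu0, hu1, hu2⟩, _⟩ := hb (i : ℤ)
      have := Nat.le_of_dvd hu0 (hu2 d hd hds)
      rw [Int.natAbs_natCast] at hu1
      exact_mod_cast this.trans hu1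
    · intro t _ _
      push_cast; ring
    · linarith
  · refine le_trans (om_sum (M := M) (Y := M * (2 * X) + M + i) (s := (r : ℤ) - i)
      (U := (ns : ℝ) * G i) (by positivity) ?_ (hδ _) _ ?_ ?_) ?_
    · intro d hd hds
      obtain ⟨⟨u, hu0, hu1, hu2⟩, _⟩ := hb (-(i : ℤ))
      have := Nat.le_of_dvd hu0 (hu2 d hd (by rwa [← sub_eq_add_neg]))
      rw [Int.natAbs_neg, Int.natAbs_natCast] at hu1
      exact_mod_cast this.trans hu1
    · intro t _ h1
      rw [Nat.cast_sub (by omega)]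
      push_cast; ring
    · intro t ht
      have := hY t ht
      omega
    · linarith

/-- the weight of large divisors near `m` and `m'`. -/
noncomputable def W (A : Set ℕ) (L2 m m' N : ℕ) : ℝ :=
  ∑ i ∈ range N, x ^ i * (((Om A L2 (m + i)).card : ℝ) + (Om A L2 (m - i)).card +
    (Om A L2 (m' + i)).card + (Om A L2 (m' - i)).card)

lemma W_mono (A : Set ℕ) (L2 m m' : ℕ) : Monotone (W A L2 m m') := by
  intro N N' h
  unfold W
  apply Finset.sum_le_sum_of_subset_of_nonneg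
  · intro i hi
    rw [Finset.mem_range] at hi ⊢
    omega
  · intro i _ _
    have := x_pos
    positivity

lemma exists_t {A : Set ℕ} (hs : Summable (wA A)) {L2 M q ns r r' : ℕ} {G : ℕ → ℕ}
    {δ K g ε : ℝ} (hε : 0 < ε) (hM : 0 < M) (hr : r < M) (hr' : r' < M)
    (hb : IsBase M q ns G r) (hb' : IsBase M q ns G r') (hδ0 : 0 ≤ δ)
    (hδ : ∀ Y, tl A L2 Y ≤ δ) (hK0 : 0 < K)
    (hK : ∀ N, ∑ i ∈ range N, x ^ i * ((i : ℝ) + 1) ^ 3 ≤ K)
    (hg0 : 0 ≤ g) (hg : ∀ i : ℕ, (G i : ℝ) ≤ g * ((i : ℝ) + 1) ^ 3)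
    (hsmall : 16 * K * ns * g * δ ≤ ε) :
    ∃ X0 : ℕ, ∀ X, X0 ≤ X → ∃ t ∈ Ico X (2 * X), ∀ N,
      W A L2 (r + M * t) (r' + M * t) N ≤ ε := by
  have hMr : (1 : ℝ) ≤ M := by exact_mod_cast hM
  set η : ℝ := ε / (64 * K * M) with hη
  have hηpos : 0 < η := by positivity
  obtain ⟨C, hC⟩ := cA_small hs hηpos
  obtain ⟨X1, hX1⟩ := exists_nat_ge (16 * K * C / ε)
  refine ⟨X1 + 1, fun X hX => ?_⟩
  by_contra hcon
  push Not at hcon
  have hXr : (1 : ℝ) ≤ X := by
    have : 1 ≤ X := by omega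
    exact_mod_cast this
  -- choose a common N
  have hN : ∃ N, ∀ t ∈ Ico X (2 * X), ε < W A L2 (r + M * t) (r' + M * t) N := by
    choose! f hf using hcon
    refine ⟨(Ico X (2 * X)).sup f, fun t ht => ?_⟩
    exact (hf t ht).trans_le (W_mono A L2 _ _ (Finset.le_sup ht))
  obtain ⟨N, hN⟩ := hN
  have h1 : (X : ℝ) * ε < ∑ t ∈ Ico X (2 * X), W A L2 (r + M * t) (r' + M * t) N := by
    have h2 : ∑ t ∈ Ico X (2 * X), ε < ∑ t ∈ Ico X (2 * X), W A L2 (r + M * t) (r' + M * t) N := by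
      apply Finset.sum_lt_sum_of_nonempty
      · rw [Finset.nonempty_Ico]; omega
      · exact hN
    rw [Finset.sum_const, Nat.card_Ico, nsmul_eq_mul] at h2
    have : 2 * X - X = X := by omega
    rwa [this] at h2
  have h2 : ∑ t ∈ Ico X (2 * X), W A L2 (r + M * t) (r' + M * t) N ≤
      ∑ i ∈ range N, x ^ i * (4 * (X * (ns * G i) * δ + (η * (M * (2 * X) + M + i) + C))) := by
    unfold W
    rw [Finset.sum_comm]
    apply Finset.sum_le_sum
    intro i _
    rw [← Finset.mul_sum]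
    apply mul_le_mul_of_nonneg_left _ (pow_nonneg x_pos.le i)
    rw [Finset.sum_add_distrib, Finset.sum_add_distrib, Finset.sum_add_distrib]
    obtain ⟨a1, a2⟩ := avg_base (X := X) (i := i) hr hb hδ hC
    obtain ⟨a3, a4⟩ := avg_base (X := X) (i := i) hr' hb' hδ hC
    linarith
  have h3 : ∑ i ∈ range N, x ^ i * (4 * (X * (ns * G i) * δ + (η * (M * (2 * X) + M + i) + C))) ≤
      ∑ i ∈ range N, (x ^ i * ((i : ℝ) + 1) ^ 3) * (4 * (X * ns * g * δ + 4 * η * M * X + C)) := by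
    apply Finset.sum_le_sum
    intro i _
    rw [mul_assoc (x ^ i) (((i : ℝ) + 1) ^ 3)]
    apply mul_le_mul_of_nonneg_left _ (pow_nonneg x_pos.le i)
    set w : ℝ := ((i : ℝ) + 1) ^ 3 with hw
    have hi : (0 : ℝ) ≤ i := by positivity
    have hw1 : (1 : ℝ) ≤ w := by
      rw [hw]; apply one_le_pow₀; linarith
    have hwi : (i : ℝ) + 1 ≤ w := by
      rw [hw]
      nlinarith [sq_nonneg (i : ℝ)]
    have b1 : (X : ℝ) * (ns * G i) * δ ≤ w * (X * ns * g * δ) := by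
      have : (X : ℝ) * (ns * G i) * δ ≤ X * (ns * (g * w)) * δ := by
        apply mul_le_mul_of_nonneg_right _ hδ0
        apply mul_le_mul_of_nonneg_left _ (by positivity)
        exact mul_le_mul_of_nonneg_left (hg i) (by positivity)
      linarith
    have b2 : η * ((M : ℝ) * (2 * X) + M + i) ≤ w * (4 * η * M * X) := by
      have hMX : (1 : ℝ) ≤ M * X := by
        have := mul_le_mul hMr hXr (by norm_num) (by linarith)
        linarith
      have c1 : (M : ℝ) ≤ M * X := by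
        have := mul_le_mul_of_nonneg_left hXr (show (0 : ℝ) ≤ M by linarith)
        linarith
      have c2 : (M : ℝ) * (2 * X) + M + i ≤ 4 * (M * X) * w := by
        have d1 : (M : ℝ) * (2 * X) + M ≤ 3 * (M * X) * w := by
          have : 3 * (M * X) * 1 ≤ 3 * ((M : ℝ) * X) * w :=
            mul_le_mul_of_nonneg_left hw1 (by positivity)
          linarith
        have d2 : (i : ℝ) ≤ (M * X) * w := by
          have : 1 * w ≤ ((M : ℝ) * X) * w := mul_le_mul_of_nonneg_right hMX (by linarith)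
          linarith
        linarith
      calc η * ((M : ℝ) * (2 * X) + M + i) ≤ η * (4 * (M * X) * w) :=
            mul_le_mul_of_nonneg_left c2 hηpos.le
        _ = w * (4 * η * M * X) := by ring
    have b3 : (C : ℝ) ≤ w * C := by
      have : (1 : ℝ) * C ≤ w * C := mul_le_mul_of_nonneg_right hw1 (by positivity)
      linarith
    have e : w * (4 * ((X : ℝ) * ns * g * δ + 4 * η * M * X + C)) =
      4 * (w * (X * ns * g * δ) + w * (4 * η * M * X) + w * C) := by ring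
    rw [e]
    linarith
  rw [← Finset.sum_mul] at h3
  have h4 : (∑ i ∈ range N, x ^ i * ((i : ℝ) + 1) ^ 3) *
      (4 * (X * ns * g * δ + 4 * η * M * X + C)) ≤
      K * (4 * (X * ns * g * δ + 4 * η * M * X + C)) :=
    mul_le_mul_of_nonneg_right (hK N) (by positivity)
  have h5 : K * (4 * ((X : ℝ) * ns * g * δ)) ≤ X * ε / 4 := by
    have := mul_le_mul_of_nonneg_left hsmall (show (0 : ℝ) ≤ X by positivity)
    nlinarith
  have h6 : K * (4 * (4 * η * M * X)) = X * ε / 4 := by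
    rw [hη]; field_simp; ring
  have h7 : K * (4 * (C : ℝ)) ≤ X * ε / 4 := by
    rw [div_le_iff₀ hε] at hX1
    have : (X1 : ℝ) ≤ X := by exact_mod_cast (by omega : X1 ≤ X)
    have := mul_le_mul_of_nonneg_right this hε.le
    linarith
  have h8 : (0 : ℝ) < X * ε := by positivity
  have h9 : K * (4 * ((X : ℝ) * ns * g * δ + 4 * η * M * X + C)) =
    K * (4 * (X * ns * g * δ)) + K * (4 * (4 * η * M * X)) + K * (4 * C) := by ring
  linarith

lemma nn_bound {A : Set ℕ} {L2 M q q' ns r t B k : ℕ} {G : ℕ → ℕ} (hb : IsBase M q ns G r)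
    (hns : 0 < ns) (hmin : ∀ n ∈ A, q ∣ n → ns ≤ n) (hdvd : ∀ n, 1 ≤ n → n ≤ L2 → n ∣ M)
    (hG : ∀ i, G i = (1 + 3 * i) * ((1 + 2 * i) * (q' + 2 * i))) (hqq : 3 * q' ≤ q)
    (hB : 3 * B ≤ q) (hqM : q ∣ M) (j : ℤ) (hj : j ≠ 0) (hk : (k : ℤ) = r + M * t + j) :
    ((NN A L2 q k).card : ℝ) ≤ if B ≤ j.natAbs then 36 * (j.natAbs : ℝ) ^ 3 else 0 := by
  obtain ⟨⟨u, hu0, hu1, hu2⟩, hq⟩ := hb j
  have hrj : ∀ d : ℕ, d ∣ M → d ∣ k → (d : ℤ) ∣ (r : ℤ) + j := by
    intro d hd hdk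
    have h1 : (d : ℤ) ∣ (k : ℤ) := Int.natCast_dvd_natCast.2 hdk
    rw [hk] at h1
    have h2 : (d : ℤ) ∣ (M : ℤ) * t := Dvd.dvd.mul_right (Int.natCast_dvd_natCast.2 hd) _
    have h3 := dvd_sub h1 h2
    have e : (r : ℤ) + M * t + j - M * t = r + j := by ring
    rwa [e] at h3
  have hcard : (NN A L2 q k).card ≤ G j.natAbs := by
    apply card_divisors_le hu0 hu1 hns
    intro n hn
    rw [mem_NN] at hn
    obtain ⟨⟨h1, h2⟩, h3, h4, h5⟩ := hn
    exact ⟨hu2 n (hdvd n h1 h2) (hrj n (hdvd n h1 h2) h5), hmin n h3 h4⟩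
  rcases (NN A L2 q k).eq_empty_or_nonempty with h | ⟨n, hn⟩
  · rw [h]
    simp only [Finset.card_empty, Nat.cast_zero]
    split_ifs
    · positivity
    · exact le_refl _
  · rw [mem_NN] at hn
    obtain ⟨⟨h1, h2⟩, h3, h4, h5⟩ := hn
    have h6 := hq (hrj q hqM (h4.trans h5)) hj
    have h7 : B ≤ j.natAbs := by omega
    rw [if_pos h7]
    set i := j.natAbs with hi
    have h8 : q' ≤ i := by omega
    have hi1 : 1 ≤ i := by
      have := Int.natAbs_pos.2 hj
      omega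
    have h9 : G i ≤ 36 * i ^ 3 := by
      rw [hG]
      calc (1 + 3 * i) * ((1 + 2 * i) * (q' + 2 * i)) ≤ (4 * i) * ((3 * i) * (3 * i)) := by
            apply Nat.mul_le_mul (by omega)
            apply Nat.mul_le_mul (by omega) (by omega)
        _ = 36 * i ^ 3 := by ring
    exact_mod_cast hcard.trans h9

end Pool.Agent.Helper9.Fib
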