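import Mathlib
import Pool.Agent.Helper9.Fib.WindowC

/-!
Case I, part D : the residues.
-/

open Finset Real

namespace Pool.Agent.Helper9.Fib

lemma natAbs_bound (v i : ℕ) (w : ℕ) (j : ℤ) (hv : 1 ≤ v) (hi : j.natAbs = i) :
    ((v : ℤ) + w * j).natAbs ≤ v * (1 + w * i) := by
  have h1 := Int.natAbs_add_le (v : ℤ) (w * j)
  rw [Int.natAbs_mul, Int.natAbs_natCast, Int.natAbs_natCast, hi] at h1
  have h2 : w * i ≤ v * (w * i) := Nat.le_mul_of_pos_left _ hv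
  calc ((v : ℤ) + w * j).natAbs ≤ v + w * i := h1
    _ ≤ v + v * (w * i) := by omega
    _ = v * (1 + w * i) := by ring

lemma divs (p L2 n : ℕ) (hp : p.Prime) (h1 : 1 ≤ n) (h2 : n ≤ L2) :
    ∃ b, p ^ b ∣ n ∧ b ≤ L2 ∧
      4 * n ∣ 2 ^ (L2 + 2) * (p ^ b * ordCompl[p] (ordCompl[2] (Nat.factorial L2))) := by
  set n1 := ordCompl[2] n with hn1
  have hn1pos : n1 ≠ 0 := (Nat.ordCompl_pos 2 (by omega)).ne'
  have e1 : 2 ^ n.factorization 2 * n1 = n := Nat.ordProj_mul_ordCompl_eq_self n 2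
  have e2 : p ^ n1.factorization p * ordCompl[p] n1 = n1 := Nat.ordProj_mul_ordCompl_eq_self n1 p
  have hfa : n ∣ Nat.factorial L2 := Nat.dvd_factorial (by omega) h2
  have d1 : n1 ∣ ordCompl[2] (Nat.factorial L2) := Nat.ordCompl_dvd_ordCompl_of_dvd hfa 2
  have d2 : ordCompl[p] n1 ∣ ordCompl[p] (ordCompl[2] (Nat.factorial L2)) :=
    Nat.ordCompl_dvd_ordCompl_of_dvd d1 p
  have hlt : n.factorization 2 < n := Nat.factorization_lt 2 (by omega)
  have hb : p ^ n1.factorization p ∣ n := by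
    refine (Dvd.intro _ e2).trans (Dvd.intro_left _ e1)
  refine ⟨n1.factorization p, hb, ?_, ?_⟩
  · have : p ^ n1.factorization p ≤ n := Nat.le_of_dvd (by omega) hb
    have h3 : n1.factorization p < p ^ n1.factorization p := Nat.lt_pow_self hp.one_lt
    omega
  · have e3 : 4 * n = 2 ^ (n.factorization 2 + 2) * (p ^ n1.factorization p * ordCompl[p] n1) := by
      rw [e2, pow_add]
      conv_lhs => rw [← e1]
      ring
    rw [e3]
    apply Nat.mul_dvd_mul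
    · exact pow_dvd_pow 2 (by omega)
    · exact Nat.mul_dvd_mul (dvd_refl _) d2

lemma arith (p L2 ns : ℕ) (hp : p.Prime) (hp2 : p ≠ 2) (hns : 0 < ns) (hL : ns ≤ L2)
    (e : ℕ) (he : 1 ≤ e) (hpe : p ^ e ∣ ns) :
    ∃ M r r' : ℕ, r < M ∧ r' < M ∧ (∀ n, 1 ≤ n → n ≤ L2 → n ∣ M) ∧
      IsBase M (p ^ e) ns (fun i => (1 + 3 * i) * ((1 + 2 * i) * (p ^ (e - 1) + 2 * i))) r ∧
      IsBase M (p ^ e) ns (fun i => (1 + 3 * i) * ((1 + 2 * i) * (p ^ (e - 1) + 2 * i))) r' ∧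
      (∀ d, d ∣ M → d ∣ r → d ∣ ns) ∧
      (∀ t, ns ∣ r + M * t ∧ Odd ((r + M * t) / ns)) ∧ ¬ p ^ e ∣ r' ∧
      (∀ n, 1 ≤ n → n ≤ L2 → ¬ p ^ e ∣ n → ((4 * n : ℕ) : ℤ) ∣ (r : ℤ) - r') := by
  -- notation
  set f := ns.factorization 2 with hf
  set no := ordCompl[2] ns with hno
  have e1 : 2 ^ f * no = ns := Nat.ordProj_mul_ordCompl_eq_self ns 2
  have hnopos : 1 ≤ no := Nat.ordCompl_pos 2 (by omega)
  have hcop2no : Nat.Coprime 2 no := Nat.coprime_ordCompl Nat.prime_two (by omega)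
  have hoddno : Odd no := Nat.coprime_two_left.1 hcop2no
  have hflt : f < ns := Nat.factorization_lt 2 (by omega)
  have hpodd : Odd p := hp.odd_of_ne_two hp2
  have hcop2p : Nat.Coprime 2 p := Nat.coprime_two_left.2 hpodd
  have h3p : 3 ≤ p := by
    have := hp.two_le
    rcases hpodd with ⟨w, hw⟩
    omega
  set q := p ^ e with hq
  set q' := p ^ (e - 1) with hq'
  have hqq' : q = p * q' := by
    rw [hq, hq', ← pow_succ']
    congr 1; omega
  have hq'pos : 0 < q' := pow_pos hp.pos _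
  have hqpos : 0 < q := pow_pos hp.pos _
  have hqq3 : 3 * q' ≤ q := by
    rw [hqq']; exact Nat.mul_le_mul_right _ h3p
  have hq'odd : Odd q' := hpodd.pow
  have hqodd : Odd q := hpodd.pow
  have hqno : q ∣ no := by
    have h1 : q ∣ 2 ^ f * no := by rw [e1]; exact hpe
    have h2 : Nat.Coprime q (2 ^ f) :=
      Nat.Coprime.pow_right _ (Nat.coprime_two_right.2 hqodd)
    exact h2.dvd_of_dvd_mul_left h1
  have hq'q : q' ∣ q := ⟨p, by rw [hqq']; ring⟩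
  have heL : e ≤ L2 := by
    have h1 : q ≤ ns := Nat.le_of_dvd hns hpe
    have h3 : e < p ^ e := Nat.lt_pow_self hp.one_lt
    omega
  set M2 := 2 ^ (L2 + 2) with hM2
  set Mp := p ^ L2 with hMp
  set Mr := ordCompl[p] (ordCompl[2] (Nat.factorial L2)) with hMr
  have hF1 : ordCompl[2] (Nat.factorial L2) ≠ 0 :=
    (Nat.ordCompl_pos 2 (Nat.factorial_ne_zero L2)).ne'
  have hM2pos : 0 < M2 := by positivity
  have hMppos : 0 < Mp := pow_pos hp.pos _
  have hMrpos : 0 < Mr := Nat.ordCompl_pos p hF1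
  have c2r : Nat.Coprime 2 Mr :=
    Nat.Coprime.of_dvd_right (Nat.ordCompl_dvd _ p)
      (Nat.coprime_ordCompl Nat.prime_two (Nat.factorial_ne_zero L2))
  have cpr : Nat.Coprime Mp Mr :=
    Nat.Coprime.pow_left _ (Nat.coprime_ordCompl hp hF1)
  have c2p : Nat.Coprime 2 Mp := Nat.Coprime.pow_right _ hcop2p
  have cM2r : Nat.Coprime M2 Mr := Nat.Coprime.pow_left _ c2r
  have cM2p : Nat.Coprime M2 Mp := Nat.Coprime.pow_left _ c2p
  have c3 : Nat.Coprime 3 M2 := Nat.Coprime.pow_right _ (by norm_num)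
  have hqMp : q ∣ Mp := pow_dvd_pow p heL
  have hq'Mp : q' ∣ Mp := hq'q.trans hqMp
  -- residues
  obtain ⟨r, hr, hra, hrb, _⟩ := crt3 hM2pos (Nat.mul_pos hMppos hMrpos) (show 0 < 1 by norm_num)
    (by rw [mul_one]; exact Nat.Coprime.mul_right cM2p cM2r) (Nat.coprime_one_right _) c3
    (Nat.Coprime.mul_right c2p c2r) (Nat.coprime_one_right _) ((2 ^ f : ℕ) : ℤ) (no : ℤ) 1
  obtain ⟨r', hr', hra', hrb', hrc'⟩ := crt3 hM2pos hMrpos hMppos
    (Nat.Coprime.mul_right cM2r cM2p) cpr.symm c3 c2r c2p ((2 ^ f : ℕ) : ℤ) (no : ℤ) (q' : ℤ)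
  have hMM : M2 * (Mp * Mr) = M2 * (Mp * Mr * 1) := by rw [mul_one]
  have hMM' : M2 * (Mp * Mr) = M2 * (Mr * Mp) := by rw [mul_comm Mp Mr]
  -- basic consequences
  have hrp : (Mp : ℤ) ∣ 2 * (r : ℤ) - no :=
    (Int.natCast_dvd_natCast.2 (Dvd.intro _ rfl : Mp ∣ Mp * Mr)).trans hrb
  have hrr : (Mr : ℤ) ∣ 2 * (r : ℤ) - no :=
    (Int.natCast_dvd_natCast.2 (Dvd.intro_left _ rfl : Mr ∣ Mp * Mr)).trans hrb
  have hdivM : ∀ n, 1 ≤ n → n ≤ L2 → 4 * n ∣ M2 * (Mp * Mr) := by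
    intro n h1 h2
    obtain ⟨b, _, hb2, hb3⟩ := divs p L2 n hp h1 h2
    refine hb3.trans (Nat.mul_dvd_mul (dvd_refl _) (Nat.mul_dvd_mul (pow_dvd_pow p hb2) (dvd_refl _)))
  have hdivM1 : ∀ n, 1 ≤ n → n ≤ L2 → n ∣ M2 * (Mp * Mr) := by
    intro n h1 h2
    exact (Dvd.intro_left 4 rfl).trans (hdivM n h1 h2)
  have h2fne : ∀ j : ℤ, ((2 ^ f : ℕ) : ℤ) + 3 * j ≠ 0 := by
    intro j hj
    have h1 : (3 : ℤ) ∣ ((2 ^ f : ℕ) : ℤ) := ⟨-j, by linarith⟩
    have h2 : 3 ∣ 2 ^ f := by exact_mod_cast h1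
    have h3 := Nat.prime_three.dvd_of_dvd_pow h2
    norm_num at h3
  have hoddne : ∀ (v : ℕ), Odd v → ∀ j : ℤ, (v : ℤ) + 2 * j ≠ 0 := by
    intro v hv j hj
    obtain ⟨w, hw⟩ := hv
    rw [hw] at hj
    push_cast at hj
    omega
  refine ⟨M2 * (Mp * Mr), r, r', ?_, ?_, hdivM1, ?_, ?_, ?_, ?_, ?_, ?_⟩
  · rw [hMM]; exact hr
  · rw [hMM']; exact hr'
  · intro j
    refine ⟨⟨((((2 ^ f : ℕ) : ℤ) + 3 * j) * (((no : ℤ) + 2 * j) * 1)).natAbs, ?_, ?_, ?_⟩, ?_⟩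
    · rw [Int.natAbs_pos]
      exact mul_ne_zero (h2fne j) (mul_ne_zero (hoddne no hoddno j) one_ne_zero)
    · rw [Int.natAbs_mul, Int.natAbs_mul]
      have b1 := natAbs_bound (2 ^ f) j.natAbs 3 j (Nat.one_le_two_pow) rfl
      have b2 := natAbs_bound no j.natAbs 2 j hnopos rfl
      have b3 : (1 : ℤ).natAbs ≤ q' + 2 * j.natAbs := by simp; omega
      push_cast at b1 b2
      push_cast
      calc ((2 : ℤ) ^ f + 3 * j).natAbs * (((no : ℤ) + 2 * j).natAbs * (1 : ℤ).natAbs)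
          ≤ (2 ^ f * (1 + 3 * j.natAbs)) * ((no * (1 + 2 * j.natAbs)) * (q' + 2 * j.natAbs)) :=
            Nat.mul_le_mul b1 (Nat.mul_le_mul b2 b3)
        _ = 2 ^ f * no * ((1 + 3 * j.natAbs) * ((1 + 2 * j.natAbs) * (q' + 2 * j.natAbs))) := by ring
        _ = _ := by rw [e1]
    · intro d hd hdr
      rw [hMM] at hd
      refine dvd_prod_three hd hdr ?_ ?_ ?_
      · have : 3 * ((r : ℤ) + j) - (((2 ^ f : ℕ) : ℤ) + 3 * j) = 3 * r - ((2 ^ f : ℕ) : ℤ) := by ring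
        rw [this]; exact hra
      · have : 2 * ((r : ℤ) + j) - ((no : ℤ) + 2 * j) = 2 * r - no := by ring
        rw [this]; exact hrb
      · simp
    · intro hqr hj
      have h1 : (q : ℤ) ∣ 2 * (r : ℤ) - no := (Int.natCast_dvd_natCast.2 hqMp).trans hrp
      have h2 : (q : ℤ) ∣ (no : ℤ) := Int.natCast_dvd_natCast.2 hqno
      have h3 : (q : ℤ) ∣ 2 * j := by
        have h4 := dvd_sub (dvd_sub (Dvd.dvd.mul_left hqr 2) h1) h2
        have : 2 * ((r : ℤ) + j) - (2 * r - no) - no = 2 * j := by ring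
        rwa [this] at h4
      have h5 := Int.natAbs_dvd_natAbs.2 h3
      rw [Int.natAbs_natCast, Int.natAbs_mul] at h5
      have h6 := Nat.le_of_dvd (by
        have := Int.natAbs_pos.2 hj
        have h7 : (2 : ℤ).natAbs = 2 := rfl
        rw [h7]; omega) h5
      have h7 : (2 : ℤ).natAbs = 2 := rfl
      rw [h7] at h6
      omega
  · intro j
    refine ⟨⟨((((2 ^ f : ℕ) : ℤ) + 3 * j) * (((no : ℤ) + 2 * j) * ((q' : ℤ) + 2 * j))).natAbs, ?_, ?_, ?_⟩, ?_⟩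
    · rw [Int.natAbs_pos]
      exact mul_ne_zero (h2fne j) (mul_ne_zero (hoddne no hoddno j) (hoddne q' hq'odd j))
    · rw [Int.natAbs_mul, Int.natAbs_mul]
      have b1 := natAbs_bound (2 ^ f) j.natAbs 3 j (Nat.one_le_two_pow) rfl
      have b2 := natAbs_bound no j.natAbs 2 j hnopos rfl
      have b3 : ((q' : ℤ) + 2 * j).natAbs ≤ q' + 2 * j.natAbs := by
        have := Int.natAbs_add_le (q' : ℤ) (2 * j)
        rw [Int.natAbs_mul, Int.natAbs_natCast] at this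
        exact this
      push_cast at b1 b2
      push_cast
      calc ((2 : ℤ) ^ f + 3 * j).natAbs * (((no : ℤ) + 2 * j).natAbs * ((q' : ℤ) + 2 * j).natAbs)
          ≤ (2 ^ f * (1 + 3 * j.natAbs)) * ((no * (1 + 2 * j.natAbs)) * (q' + 2 * j.natAbs)) :=
            Nat.mul_le_mul b1 (Nat.mul_le_mul b2 b3)
        _ = 2 ^ f * no * ((1 + 3 * j.natAbs) * ((1 + 2 * j.natAbs) * (q' + 2 * j.natAbs))) := by ring
        _ = _ := by rw [e1]
    · intro d hd hdr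
      rw [hMM'] at hd
      refine dvd_prod_three hd hdr ?_ ?_ ?_
      · have : 3 * ((r' : ℤ) + j) - (((2 ^ f : ℕ) : ℤ) + 3 * j) = 3 * r' - ((2 ^ f : ℕ) : ℤ) := by ring
        rw [this]; exact hra'
      · have : 2 * ((r' : ℤ) + j) - ((no : ℤ) + 2 * j) = 2 * r' - no := by ring
        rw [this]; exact hrb'
      · have : 2 * ((r' : ℤ) + j) - ((q' : ℤ) + 2 * j) = 2 * r' - q' := by ring
        rw [this]; exact hrc'
    · intro hqr hj
      have h1 : (q : ℤ) ∣ 2 * (r' : ℤ) - q' := (Int.natCast_dvd_natCast.2 hqMp).trans hrc'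
      have h3 : (q : ℤ) ∣ (q' : ℤ) + 2 * j := by
        have h4 := dvd_sub (Dvd.dvd.mul_left hqr 2) h1
        have : 2 * ((r' : ℤ) + j) - (2 * r' - q') = q' + 2 * j := by ring
        rwa [this] at h4
      have h5 := Int.natAbs_dvd_natAbs.2 h3
      rw [Int.natAbs_natCast] at h5
      have h6 := Nat.le_of_dvd (Int.natAbs_pos.2 (hoddne q' hq'odd j)) h5
      have b3 : ((q' : ℤ) + 2 * j).natAbs ≤ q' + 2 * j.natAbs := by
        have := Int.natAbs_add_le (q' : ℤ) (2 * j)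
        rw [Int.natAbs_mul, Int.natAbs_natCast] at this
        exact this
      omega
  · intro d hd hdr
    rw [hMM] at hd
    have h1 := dvd_prod_three (k := (r : ℤ)) (va := ((2 ^ f : ℕ) : ℤ)) (vb := (no : ℤ)) (vc := 1)
      hd (Int.natCast_dvd_natCast.2 hdr) hra hrb (by simp)
    rw [mul_one, ← Nat.cast_mul, Int.natAbs_natCast, e1] at h1
    exact h1
  · intro t
    have h2fM : 2 ^ (f + 1) ∣ M2 := pow_dvd_pow 2 (by omega)
    have h2f : 2 ^ f ∣ r := by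
      have h1 : ((2 ^ f : ℕ) : ℤ) ∣ 3 * (r : ℤ) - ((2 ^ f : ℕ) : ℤ) :=
        (Int.natCast_dvd_natCast.2 ((pow_dvd_pow 2 (by omega)).trans h2fM)).trans hra
      have h2 : ((2 ^ f : ℕ) : ℤ) ∣ 3 * (r : ℤ) := by
        have := dvd_add h1 (dvd_refl ((2 ^ f : ℕ) : ℤ))
        rwa [sub_add_cancel] at this
      have h3 : 2 ^ f ∣ 3 * r := by exact_mod_cast h2
      exact (Nat.Coprime.pow_left f (by norm_num : Nat.Coprime 2 3)).dvd_of_dvd_mul_left h3
    have hnoM : no ∣ Mp * Mr := by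
      have h1 : no ∣ M2 * (Mp * Mr) := (Dvd.intro_left _ e1).trans (hdivM1 ns hns hL)
      have h2 : Nat.Coprime no M2 := (Nat.Coprime.pow_left _ hcop2no).symm
      exact h2.dvd_of_dvd_mul_left h1
    have hnor : no ∣ r := by
      have h1 : (no : ℤ) ∣ 2 * (r : ℤ) - no := (Int.natCast_dvd_natCast.2 hnoM).trans hrb
      have h2 : (no : ℤ) ∣ 2 * (r : ℤ) := by
        have := dvd_add h1 (dvd_refl (no : ℤ))
        rwa [sub_add_cancel] at this
      have h3 : no ∣ 2 * r := by exact_mod_cast h2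
      exact hcop2no.symm.dvd_of_dvd_mul_left h3
    have hnsr : ns ∣ r := by
      rw [← e1]
      exact Nat.Coprime.mul_dvd_of_dvd_of_dvd (Nat.Coprime.pow_left _ hcop2no) h2f hnor
    have hnsm : ns ∣ r + M2 * (Mp * Mr) * t :=
      dvd_add hnsr (Dvd.dvd.mul_right (hdivM1 ns hns hL) t)
    refine ⟨hnsm, ?_⟩
    by_contra hnodd
    rw [Nat.not_odd_iff_even] at hnodd
    obtain ⟨w, hw⟩ := hnodd
    have h1 : r + M2 * (Mp * Mr) * t = ns * (w + w) := by
      rw [← hw, Nat.mul_div_cancel' hnsm]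
    have h2 : 2 ^ (f + 1) ∣ r + M2 * (Mp * Mr) * t := by
      rw [h1, ← e1]
      exact ⟨no * w, by ring⟩
    have h3 : 2 ^ (f + 1) ∣ M2 * (Mp * Mr) * t :=
      Dvd.dvd.mul_right (Dvd.dvd.mul_right h2fM _) _
    have h4 : 2 ^ (f + 1) ∣ r := (Nat.dvd_add_left h3).1 h2
    have h5 : ((2 ^ (f + 1) : ℕ) : ℤ) ∣ 3 * (r : ℤ) - ((2 ^ f : ℕ) : ℤ) :=
      (Int.natCast_dvd_natCast.2 h2fM).trans hra
    have h6 : ((2 ^ (f + 1) : ℕ) : ℤ) ∣ ((2 ^ f : ℕ) : ℤ) := by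
      have := dvd_sub (Dvd.dvd.mul_left (Int.natCast_dvd_natCast.2 h4) 3) h5
      rwa [sub_sub_cancel] at this
    have h7 : 2 ^ (f + 1) ∣ 2 ^ f := by exact_mod_cast h6
    have h8 := Nat.le_of_dvd (by positivity) h7
    have h9 : 2 ^ (f + 1) = 2 * 2 ^ f := by ring
    have h10 : 0 < 2 ^ f := by positivity
    omega
  · intro hqr
    have h1 : (q : ℤ) ∣ 2 * (r' : ℤ) - q' := (Int.natCast_dvd_natCast.2 hqMp).trans hrc'
    have h2 := dvd_sub (Dvd.dvd.mul_left (Int.natCast_dvd_natCast.2 hqr) 2) h1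
    rw [sub_sub_cancel] at h2
    have h3 : q ∣ q' := by exact_mod_cast h2
    have h4 := Nat.le_of_dvd hq'pos h3
    omega
  · intro n h1 h2 h3
    obtain ⟨b, hb1, _, hb3⟩ := divs p L2 n hp h1 h2
    have hb : b ≤ e - 1 := by
      by_contra hcon
      exact h3 ((pow_dvd_pow p (by omega)).trans hb1)
    have h4 : 4 * n ∣ M2 * (q' * Mr) :=
      hb3.trans (Nat.mul_dvd_mul (dvd_refl _) (Nat.mul_dvd_mul (pow_dvd_pow p hb) (dvd_refl _)))
    refine (Int.natCast_dvd_natCast.2 h4).trans ?_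
    have i2 : (M2 : ℤ) ∣ (r : ℤ) - r' := by
      have h5 := dvd_sub hra hra'
      have : 3 * (r : ℤ) - ((2 ^ f : ℕ) : ℤ) - (3 * r' - ((2 ^ f : ℕ) : ℤ)) = 3 * (r - r') := by ring
      rw [this] at h5
      have h6 : IsCoprime (M2 : ℤ) 3 := by
        have := Nat.isCoprime_iff_coprime.2 c3.symm
        exact_mod_cast this
      exact h6.dvd_of_dvd_mul_left h5
    have ir : (Mr : ℤ) ∣ (r : ℤ) - r' := by
      have h5 := dvd_sub hrr hrb'
      have : 2 * (r : ℤ) - no - (2 * r' - no) = 2 * (r - r') := by ring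
      rw [this] at h5
      have h6 : IsCoprime (Mr : ℤ) 2 := by
        have := Nat.isCoprime_iff_coprime.2 c2r.symm
        exact_mod_cast this
      exact h6.dvd_of_dvd_mul_left h5
    have iq : (q' : ℤ) ∣ (r : ℤ) - r' := by
      have a1 : (q' : ℤ) ∣ 2 * (r : ℤ) - no := (Int.natCast_dvd_natCast.2 hq'Mp).trans hrp
      have a2 : (q' : ℤ) ∣ 2 * (r' : ℤ) - q' := (Int.natCast_dvd_natCast.2 hq'Mp).trans hrc'
      have a3 : (q' : ℤ) ∣ (no : ℤ) := Int.natCast_dvd_natCast.2 (hq'q.trans hqno)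
      have h5 := dvd_sub (dvd_add (dvd_sub a1 a2) a3) (dvd_refl (q' : ℤ))
      have : 2 * (r : ℤ) - no - (2 * r' - q') + no - q' = 2 * (r - r') := by ring
      rw [this] at h5
      have h6 : IsCoprime (q' : ℤ) 2 := by
        have := Nat.isCoprime_iff_coprime.2 (Nat.coprime_two_right.2 hq'odd)
        exact_mod_cast this
      exact h6.dvd_of_dvd_mul_left h5
    push_cast
    apply IsCoprime.mul_dvd _ i2
    · apply IsCoprime.mul_dvd _ iq ir
      exact Nat.isCoprime_iff_coprime.2 (Nat.Coprime.of_dvd_left hq'Mp cpr)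
    · have := Nat.isCoprime_iff_coprime.2
        (Nat.Coprime.mul_right (Nat.Coprime.of_dvd_right hq'Mp cM2p) cM2r)
      exact_mod_cast this

end Pool.Agent.Helper9.Fib
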