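import Mathlib
import Pool.Agent.Helper9.Fib.Arith

/-!
Case I : unbounded odd prime powers dividing elements of `A`.
-/

open Finset Real

namespace Pool.Agent.Helper9.Fib

lemma summable_cube : Summable (fun i : ℕ => (i : ℝ) ^ 3 * x ^ i) := by
  have := summable_pow_mul_geometric_of_norm_lt_one (R := ℝ) 3 (r := x)
    (by rw [Real.norm_eq_abs, abs_of_pos x_pos]; exact x_lt_one)
  exact this

lemma summable_cube_succ : Summable (fun i : ℕ => x ^ i * ((i : ℝ) + 1) ^ 3) := by
  have h1 := (summable_nat_add_iff 1).2 summable_cube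
  have h2 := h1.mul_left (x⁻¹)
  refine h2.congr (fun i => ?_)
  push_cast
  rw [pow_succ]
  have := x_pos.ne'
  field_simp
  try ring

theorem case_one (A : Set ℕ) (h0 : 0 ∉ A) (hs : Summable (wA A))
    (H : ∀ K : ℕ, ∃ n ∈ A, ∃ p e : ℕ, p.Prime ∧ p ≠ 2 ∧ K ≤ p ^ e ∧ p ^ e ∣ n)
    (P Q : ℤ) (hQ : Q ≠ 0) (hPQ : √5 * Q * R A 0 = P) : False := by
  classical
  apply crit_one A P Q hQ hPQ
  intro ε₀ hε₀ L
  have hx0 := x_pos
  have hx1 := x_lt_one
  set ε : ℝ := min (ε₀ / 4) (1 / 4) with hε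
  have hεpos : 0 < ε := by rw [hε]; positivity
  have hε1 : ε ≤ 1 / 4 := min_le_right _ _
  have hε2 : ε ≤ ε₀ / 4 := min_le_left _ _
  -- choice of B
  obtain ⟨B0, hB0⟩ := tail_small (fun i : ℕ => 72 * ((i : ℝ) ^ 3 * x ^ i)) (summable_cube.mul_left 72)
    (fun i => by positivity) ε hεpos
  set B := max B0 1 with hBdef
  have hB := hB0 B (le_max_left _ _)
  have hB1 : 1 ≤ B := le_max_right _ _
  -- the prime power
  obtain ⟨n0, hn0, p, e0, hp, hp2, hKe, hpe0⟩ := H (3 * B)
  have hex : ∃ n, n ∈ A ∧ p ^ e0 ∣ n := ⟨n0, hn0, hpe0⟩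
  set ns := Nat.find hex with hnsdef
  obtain ⟨hnsA, hnse0⟩ := Nat.find_spec hex
  rw [← hnsdef] at hnsA hnse0
  have hmin0 : ∀ n ∈ A, p ^ e0 ∣ n → ns ≤ n := fun n h1 h2 => Nat.find_min' hex ⟨h1, h2⟩
  have hnspos : 0 < ns := by
    rcases Nat.eq_zero_or_pos ns with h | h
    · rw [h] at hnsA; exact absurd hnsA h0
    · exact h
  set e := ns.factorization p with he
  have hee0 : e0 ≤ e := (hp.pow_dvd_iff_le_factorization hnspos.ne').1 hnse0
  have hpe : p ^ e ∣ ns := Nat.ordProj_dvd ns p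
  have he0 : 1 ≤ e0 := by
    by_contra hcon
    have : e0 = 0 := by omega
    rw [this, pow_zero] at hKe
    omega
  have he1 : 1 ≤ e := by omega
  set q := p ^ e with hq
  set q' := p ^ (e - 1) with hq'
  have hqe0 : p ^ e0 ∣ q := pow_dvd_pow p hee0
  have hmin : ∀ n ∈ A, q ∣ n → ns ≤ n := fun n h1 h2 => hmin0 n h1 (hqe0.trans h2)
  have h3p : 3 ≤ p := by
    have := hp.two_le
    omega
  have hqq' : q = p * q' := by
    rw [hq, hq', ← pow_succ']
    congr 1; omega
  have hqq3 : 3 * q' ≤ q := by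
    rw [hqq']; exact Nat.mul_le_mul_right _ h3p
  have hqpos : 0 < q := pow_pos hp.pos _
  have h3B : 3 * B ≤ q := hKe.trans (Nat.le_of_dvd hqpos hqe0)
  -- constants
  set G : ℕ → ℕ := fun i => (1 + 3 * i) * ((1 + 2 * i) * (q' + 2 * i)) with hG
  set g : ℝ := 6 * (q' + 2) with hg
  have hgpos : 0 < g := by positivity
  have hGg : ∀ i : ℕ, (G i : ℝ) ≤ g * ((i : ℝ) + 1) ^ 3 := by
    intro i
    have : G i ≤ 6 * (q' + 2) * (i + 1) ^ 3 := by
      rw [hG]
      calc (1 + 3 * i) * ((1 + 2 * i) * (q' + 2 * i))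
          ≤ (3 * (i + 1)) * ((2 * (i + 1)) * ((q' + 2) * (i + 1))) := by
            apply Nat.mul_le_mul (by omega)
            apply Nat.mul_le_mul (by omega)
            nlinarith [Nat.zero_le (q' * i)]
        _ = 6 * (q' + 2) * (i + 1) ^ 3 := by ring
    rw [hg]
    exact_mod_cast this
  set K : ℝ := ∑' i : ℕ, x ^ i * ((i : ℝ) + 1) ^ 3 with hKdef
  have hKN : ∀ N, ∑ i ∈ range N, x ^ i * ((i : ℝ) + 1) ^ 3 ≤ K := fun N =>
    summable_cube_succ.sum_le_tsum _ (fun i _ => by positivity)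
  have hK0 : 0 < K := by
    have := hKN 1
    simp at this
    linarith
  have hnsr : (0 : ℝ) < ns := by exact_mod_cast hnspos
  set δ : ℝ := ε / (16 * K * ns * g) with hδdef
  have hδpos : 0 < δ := by positivity
  obtain ⟨L0, hL0⟩ := tl_small hs hδpos
  set L2 := max L0 ns with hL2
  have hδ : ∀ Y, tl A L2 Y ≤ δ := hL0 L2 (le_max_left _ _)
  have hnsL : ns ≤ L2 := le_max_right _ _
  obtain ⟨M, r, r', hr, hr', hdvd, hb, hb', hdns, hodd, hnq, hcong⟩ :=
    arith p L2 ns hp hp2 hnspos hnsL e he1 hpe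
  change IsBase M q ns G r at hb
  change IsBase M q ns G r' at hb'
  change ¬ q ∣ r' at hnq
  change ∀ n, 1 ≤ n → n ≤ L2 → ¬ q ∣ n → ((4 * n : ℕ) : ℤ) ∣ (r : ℤ) - r' at hcong
  have hMpos : 0 < M := by omega
  have hqM : q ∣ M := by
    have h1 : ns ∣ M := hdvd ns hnspos hnsL
    exact hpe.trans h1
  have hsmall : 16 * K * ns * g * δ ≤ ε := by
    rw [hδdef]
    apply le_of_eq
    field_simp
  obtain ⟨X0, hX0⟩ := exists_t hs hεpos hMpos hr hr' hb hb' hδpos.le hδ hK0 hKN hgpos.le hGg hsmall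
  obtain ⟨B1, hB1'⟩ := tail_small (fun i : ℕ => (M : ℝ) * x ^ i)
    ((summable_geometric_of_lt_one hx0.le hx1).mul_left _) (fun i => by positivity) ε hεpos
  have hB1 := hB1' B1 le_rfl
  set X := max X0 (max L (B1 + 1)) with hX
  obtain ⟨t, ht, hW⟩ := hX0 X (le_max_left _ _)
  rw [Finset.mem_Ico] at ht
  have hXL : L ≤ X := (le_max_left _ _).trans (le_max_right _ _)
  have hXB : B1 + 1 ≤ X := (le_max_right _ _).trans (le_max_right _ _)
  have hMt : t ≤ M * t := Nat.le_mul_of_pos_left _ hMpos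
  set m := r + M * t with hm
  set m' := r' + M * t with hm'
  have hmX : X ≤ m := by omega
  have hmX' : X ≤ m' := by omega
  -- the classes agree for n not divisible by q
  have same : ∀ (k k' : ℕ), 1 ≤ k → 1 ≤ k' → (k : ℤ) - k' = (m : ℤ) - m' →
      ∀ n ∈ A, 1 ≤ n → n ≤ L2 → ¬ q ∣ n → c n k = c n k' := by
    intro k k' hk hk' hkk n _ h1 h2 h3
    apply c_congr h1 hk hk'
    rw [hkk, hm, hm']
    have := hcong n h1 h2 h3
    have e : ((r + M * t : ℕ) : ℤ) - ((r' + M * t : ℕ) : ℤ) = (r : ℤ) - r' := by push_cast; ring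
    rw [e]; exact this
  have hOm : ∀ i, ((Om A L2 (m + i)).card : ℝ) + (Om A L2 (m - i)).card +
    (Om A L2 (m' + i)).card + (Om A L2 (m' - i)).card ≥ 0 := by intro i; positivity
  -- the centre
  have hW1 := hW 1
  have hcard0 : (Om A L2 m).card = 0 ∧ (Om A L2 m').card = 0 := by
    unfold W at hW1
    rw [Finset.sum_range_one, pow_zero, one_mul, add_zero, add_zero, Nat.sub_zero, Nat.sub_zero] at hW1
    have h1 : ((Om A L2 m).card : ℝ) < 1 := by
      have : (0 : ℝ) ≤ (Om A L2 m').card := by positivity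
      linarith
    have h2 : ((Om A L2 m').card : ℝ) < 1 := by
      have : (0 : ℝ) ≤ (Om A L2 m).card := by positivity
      linarith
    constructor
    · have : (Om A L2 m).card < 1 := by exact_mod_cast h1
      omega
    · have : (Om A L2 m').card < 1 := by exact_mod_cast h2
      omega
  have hcentre : |a A m - a A m'| = 1 := by
    apply window_zero A L2 q ns (show 1 ≤ m by omega) (show 1 ≤ m' by omega)
      (same m m' (by omega) (by omega) rfl) hnsA hnspos hnsL hpe
    · intro n hn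
      rw [mem_NN] at hn
      obtain ⟨⟨h1, h2⟩, h3, h4, h5⟩ := hn
      have h6 : n ∣ M := hdvd n h1 h2
      have h7 : n ∣ r := by
        rw [hm] at h5
        exact (Nat.dvd_add_left (Dvd.dvd.mul_right h6 t)).1 h5
      have h8 := Nat.le_of_dvd hnspos (hdns n h6 h7)
      have h9 := hmin n h3 h4
      omega
    · rw [Finset.eq_empty_iff_forall_notMem]
      intro n hn
      rw [mem_NN] at hn
      obtain ⟨⟨h1, h2⟩, h3, h4, h5⟩ := hn
      have h6 : q ∣ m' := h4.trans h5
      rw [hm'] at h6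
      exact hnq ((Nat.dvd_add_left (Dvd.dvd.mul_right hqM t)).1 h6)
    · exact Finset.card_eq_zero.1 hcard0.1
    · exact Finset.card_eq_zero.1 hcard0.2
    · rw [c_ne_zero_iff]
      exact hodd t
  -- bounds for a single term
  have hterm : ∀ (k k' : ℕ) (j : ℤ), j ≠ 0 → 1 ≤ k → 1 ≤ k' → (k : ℤ) = m + j → (k' : ℤ) = m' + j →
      |(a A k : ℝ) - a A k'| ≤ (if B ≤ j.natAbs then 72 * (j.natAbs : ℝ) ^ 3 else 0) +
        ((Om A L2 k).card + (Om A L2 k').card) := by
    intro k k' j hj hk hk' hkj hkj'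
    have h1 := window A L2 q hk hk' (same k k' hk hk' (by rw [hkj, hkj']; ring))
    have h1' : |(a A k : ℝ) - a A k'| ≤ (NN A L2 q k).card + (NN A L2 q k').card +
        (Om A L2 k).card + (Om A L2 k').card := by exact_mod_cast h1
    have h2 := nn_bound (A := A) (L2 := L2) (q' := q') (t := t) (k := k) hb hnspos hmin hdvd
      (fun i => rfl) hqq3 h3B hqM j hj (by rw [hkj, hm]; push_cast; ring)
    have h3 := nn_bound (A := A) (L2 := L2) (q' := q') (t := t) (k := k') hb' hnspos hmin hdvd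
      (fun i => rfl) hqq3 h3B hqM j hj (by rw [hkj', hm']; push_cast; ring)
    clear_value G g K δ L2 X m m' ns e q q' B ε
    by_cases hBj : B ≤ j.natAbs
    · rw [if_pos hBj] at h2 h3 ⊢
      linarith
    · rw [if_neg hBj] at h2 h3 ⊢
      linarith
  have hBsum : ∀ N, ∑ i ∈ range N, (if B ≤ i + 1 then 72 * (((i + 1 : ℕ) : ℝ)) ^ 3 else 0) * x ^ (i + 1) ≤ ε := by
    intro N
    have h1 := hB (N + 1)
    rw [Finset.sum_range_succ'] at h1
    have h2 : (0 : ℝ) ≤ if B ≤ 0 then 72 * (((0 : ℕ) : ℝ) ^ 3 * x ^ 0) else 0 := by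
      split_ifs <;> positivity
    refine le_trans (le_of_eq ?_) (le_trans (le_add_of_nonneg_right h2) h1)
    apply Finset.sum_congr rfl
    intro i _
    split_ifs
    · ring
    · ring
  have hWsum : ∀ N, ∑ i ∈ range N, ((((Om A L2 (m + (i + 1))).card : ℝ) +
      (Om A L2 (m - (i + 1))).card + (Om A L2 (m' + (i + 1))).card +
      (Om A L2 (m' - (i + 1))).card)) * x ^ (i + 1) ≤ ε := by
    intro N
    have h1 := hW (N + 1)
    unfold W at h1
    rw [Finset.sum_range_succ'] at h1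
    have h2 := mul_nonneg (pow_nonneg hx0.le 0) (hOm 0)
    refine le_trans (le_of_eq ?_) (le_trans (le_add_of_nonneg_right h2) h1)
    apply Finset.sum_congr rfl
    intro i _
    ring
  have hMsum : ∀ N, ∑ i ∈ range N, (if B1 ≤ i + 1 then (M : ℝ) * x ^ (i + 1) else 0) ≤ ε := by
    intro N
    have h1 := hB1 (N + 1)
    rw [Finset.sum_range_succ'] at h1
    have h2 : (0 : ℝ) ≤ if B1 ≤ 0 then (M : ℝ) * x ^ 0 else 0 := by
      split_ifs <;> positivity
    exact le_trans (le_add_of_nonneg_right h2) h1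
  refine ⟨m, m', by omega, by omega, hcentre, ?_, ?_⟩
  · intro N
    have h1 : ∑ i ∈ range N, |(a A (m + (i + 1)) : ℝ) - a A (m' + (i + 1))| * x ^ (i + 1) ≤
        ∑ i ∈ range N, ((if B ≤ i + 1 then 72 * (((i + 1 : ℕ) : ℝ)) ^ 3 else 0) * x ^ (i + 1) +
          ((((Om A L2 (m + (i + 1))).card : ℝ) +
      (Om A L2 (m - (i + 1))).card + (Om A L2 (m' + (i + 1))).card +
      (Om A L2 (m' - (i + 1))).card)) * x ^ (i + 1)) := by
      apply Finset.sum_le_sum
      intro i _
      rw [← add_mul]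
      apply mul_le_mul_of_nonneg_right _ (by positivity)
      have h2 := hterm (m + (i + 1)) (m' + (i + 1)) ((i + 1 : ℕ) : ℤ) (by omega) (by omega) (by omega)
        (by push_cast; ring) (by push_cast; ring)
      rw [Int.natAbs_natCast] at h2
      have h3 : (0 : ℝ) ≤ (Om A L2 (m - (i + 1))).card := by positivity
      have h4 : (0 : ℝ) ≤ (Om A L2 (m' - (i + 1))).card := by positivity
      linarith
    refine h1.trans ?_
    rw [Finset.sum_add_distrib]
    have h5 := hBsum N
    have h6 := hWsum N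
    linarith
  · intro N
    have h1 : ∑ i ∈ range N, |(a A (m - (i + 1)) : ℝ) - a A (m' - (i + 1))| * x ^ (i + 1) ≤
        ∑ i ∈ range N, (((if B ≤ i + 1 then 72 * (((i + 1 : ℕ) : ℝ)) ^ 3 else 0) * x ^ (i + 1) +
          ((((Om A L2 (m + (i + 1))).card : ℝ) +
      (Om A L2 (m - (i + 1))).card + (Om A L2 (m' + (i + 1))).card +
      (Om A L2 (m' - (i + 1))).card)) * x ^ (i + 1)) +
          (if B1 ≤ i + 1 then (M : ℝ) * x ^ (i + 1) else 0)) := by
      apply Finset.sum_le_sum
      intro i _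
      have n1 : (0 : ℝ) ≤ (Om A L2 (m + (i + 1))).card := by positivity
      have n2 : (0 : ℝ) ≤ (Om A L2 (m' + (i + 1))).card := by positivity
      have n3 : (0 : ℝ) ≤ (Om A L2 (m - (i + 1))).card := by positivity
      have n4 : (0 : ℝ) ≤ (Om A L2 (m' - (i + 1))).card := by positivity
      have n5 : (0 : ℝ) ≤ if B1 ≤ i + 1 then (M : ℝ) * x ^ (i + 1) else 0 := by
        split_ifs <;> positivity
      have n6 : (0 : ℝ) ≤ (if B ≤ i + 1 then 72 * (((i + 1 : ℕ) : ℝ)) ^ 3 else 0) := by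
        split_ifs <;> positivity
      have n7 : (0 : ℝ) ≤ x ^ (i + 1) := by positivity
      by_cases hcase : i + 1 < m ∧ i + 1 < m'
      · refine le_trans ?_ (le_add_of_nonneg_right n5)
        rw [← add_mul]
        apply mul_le_mul_of_nonneg_right _ n7
        have h2 := hterm (m - (i + 1)) (m' - (i + 1)) (-((i + 1 : ℕ) : ℤ)) (by omega) (by omega)
          (by omega) (by rw [Nat.cast_sub (by omega)]; ring) (by rw [Nat.cast_sub (by omega)]; ring)
        rw [Int.natAbs_neg, Int.natAbs_natCast] at h2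
        linarith
      · have hBi : B1 ≤ i + 1 := by omega
        rw [if_pos hBi]
        have h2 : |(a A (m - (i + 1)) : ℝ) - a A (m' - (i + 1))| ≤ M := by
          have hz : m - (i + 1) = 0 ∨ m' - (i + 1) = 0 := by omega
          rcases hz with hz | hz
          · rw [hz, a_zero, Int.cast_zero, zero_sub, abs_neg]
            have h3 := abs_a_le A (m' - (i + 1))
            have h4 : m' - (i + 1) ≤ M := by omega
            have h5 : |a A (m' - (i + 1))| ≤ (M : ℤ) := h3.trans (by exact_mod_cast h4)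
            exact_mod_cast h5
          · rw [hz, a_zero, Int.cast_zero, sub_zero]
            have h3 := abs_a_le A (m - (i + 1))
            have h4 : m - (i + 1) ≤ M := by omega
            have h5 : |a A (m - (i + 1))| ≤ (M : ℤ) := h3.trans (by exact_mod_cast h4)
            exact_mod_cast h5
        have h3 : |(a A (m - (i + 1)) : ℝ) - a A (m' - (i + 1))| * x ^ (i + 1) ≤ M * x ^ (i + 1) :=
          mul_le_mul_of_nonneg_right h2 n7
        have n8 := mul_nonneg n6 n7
        have n9 : (0 : ℝ) ≤ ((((Om A L2 (m + (i + 1))).card : ℝ) +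
            (Om A L2 (m - (i + 1))).card + (Om A L2 (m' + (i + 1))).card +
            (Om A L2 (m' - (i + 1))).card)) * x ^ (i + 1) := by positivity
        linarith
    refine h1.trans ?_
    rw [Finset.sum_add_distrib, Finset.sum_add_distrib]
    have h5 := hBsum N
    have h6 := hWsum N
    have h7 := hMsum N
    linarith

end Pool.Agent.Helper9.Fib
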