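import Mathlib
import Pool.Agent.Helper9.Fib.CaseOne

open Finset Real

namespace Pool.Agent.Helper9.Fib

/-- If the odd prime powers dividing elements of `A` are bounded, all elements of `A` have odd part
dividing a fixed odd number. -/
lemma bounded_case {A : Set ℕ} (h0 : 0 ∉ A) (K : ℕ)
    (hK : ∀ n ∈ A, ∀ p e : ℕ, p.Prime → p ≠ 2 → p ^ e ∣ n → p ^ e < K) :
    ∃ C : ℕ, Odd C ∧ ∀ n ∈ A, ∃ f e : ℕ, n = 2 ^ f * e ∧ e ∣ C := by
  refine ⟨ordCompl[2] ((Nat.factorial K) ^ K), ?_, ?_⟩
  · have hne : (Nat.factorial K) ^ K ≠ 0 := pow_ne_zero _ (Nat.factorial_ne_zero K)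
    exact Nat.coprime_two_left.1 (Nat.coprime_ordCompl Nat.prime_two hne)
  · intro n hn
    have hnpos : n ≠ 0 := by
      intro h; rw [h] at hn; exact h0 hn
    refine ⟨n.factorization 2, ordCompl[2] n, (Nat.ordProj_mul_ordCompl_eq_self n 2).symm, ?_⟩
    have hC : ordCompl[2] ((Nat.factorial K) ^ K) ≠ 0 :=
      (Nat.ordCompl_pos 2 (pow_ne_zero _ (Nat.factorial_ne_zero K))).ne'
    have hno : ordCompl[2] n ≠ 0 := (Nat.ordCompl_pos 2 hnpos).ne'
    rw [← Nat.factorization_le_iff_dvd hno hC]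
    intro p
    by_cases hp : p.Prime
    · by_cases hp2 : p = 2
      · subst hp2
        rw [Nat.factorization_ordCompl, Finsupp.erase_same]
        exact Nat.zero_le _
      · have h1 : p ^ (n.factorization p) ∣ n := Nat.ordProj_dvd n p
        have h2 := hK n hn p _ hp hp2 h1
        rw [Nat.factorization_ordCompl, Finsupp.erase_ne hp2, Nat.factorization_ordCompl,
          Finsupp.erase_ne hp2, Nat.factorization_pow, Finsupp.smul_apply, smul_eq_mul]
        by_cases he : n.factorization p = 0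
        · rw [he]; exact Nat.zero_le _
        · have h3 : n.factorization p < p ^ n.factorization p := Nat.lt_pow_self hp.one_lt
          have h4 : p ≤ K := by
            have : p ^ 1 ≤ p ^ n.factorization p := Nat.pow_le_pow_right hp.pos (by omega)
            rw [pow_one] at this
            omega
          have h5 : 1 ≤ (Nat.factorial K).factorization p := by
            rw [← hp.dvd_iff_one_le_factorization (Nat.factorial_ne_zero K)]
            exact Nat.dvd_factorial hp.pos h4
          calc n.factorization p ≤ K * 1 := by omega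
            _ ≤ K * (Nat.factorial K).factorization p := Nat.mul_le_mul_left _ h5
    · rw [Nat.factorization_eq_zero_of_not_prime _ hp]
      exact Nat.zero_le _

theorem irrational_set (A : Set ℕ) (h0 : 0 ∉ A) (hinf : A.Infinite) (hs : Summable (wA A))
    [DecidablePred (· ∈ A)] :
    Irrational (∑' n, (if n ∈ A then 1 / (Nat.fib n : ℝ) else 0)) := by
  rw [tsum_fib A h0]
  rintro ⟨y, hy⟩
  have hR : R A 0 = ∑' k, (a A k : ℝ) * x ^ k := by
    unfold R
    simp only [zero_add]
  rw [← hR] at hy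
  have hQ : (y.den : ℤ) ≠ 0 := by exact_mod_cast y.den_ne_zero
  have hPQ : √5 * ((y.den : ℤ) : ℝ) * R A 0 = ((y.num : ℤ) : ℝ) := by
    have h1 : ((y : ℚ) : ℝ) = (y.num : ℝ) / (y.den : ℝ) := by
      exact_mod_cast congrArg (fun z : ℚ => (z : ℝ)) (Rat.num_div_den y).symm
    have h2 : (y.den : ℝ) ≠ 0 := by exact_mod_cast y.den_ne_zero
    have h3 : √5 * R A 0 * (y.den : ℝ) = (y.num : ℝ) := by
      rw [← hy, h1]
      field_simp
    push_cast
    linarith
  by_cases H : ∀ K : ℕ, ∃ n ∈ A, ∃ p e : ℕ, p.Prime ∧ p ≠ 2 ∧ K ≤ p ^ e ∧ p ^ e ∣ n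
  · exact case_one A h0 hs H y.num y.den hQ hPQ
  · push Not at H
    obtain ⟨K, hK⟩ := H
    obtain ⟨C, hCodd, hC⟩ := bounded_case h0 K (fun n hn p e hp hp2 hd => by
      by_contra hcon
      exact hK n hn p e hp hp2 (not_lt.1 hcon) hd)
    exact case_two A h0 hinf C hCodd hC y.num y.den hQ hPQ

end Pool.Agent.Helper9.Fib
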